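import Mathlib

/-!
# Ideals of polynomials generated by polynomials with at most two terms
-/

set_option autoImplicit false

namespace Q49.TG

open MvPolynomial

variable {σ τ K : Type*} [Field K]

/-- The kernel of a ring homomorphism sending each variable to a term (a scalar times a monomial) is
generated by its elements which are monomials or differences of two terms. -/
theorem mem_span_of_ker {m : σ → τ →₀ ℕ} {c : σ → K} (F : MvPolynomial σ K)
    (hF : aeval (R := K) (fun i => (monomial (m i) (c i) : MvPolynomial τ K)) F = 0) :
    F ∈ Ideal.span {g : MvPolynomial σ K |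
      aeval (R := K) (fun i => (monomial (m i) (c i) : MvPolynomial τ K)) g = 0 ∧
      ((∃ u, g = monomial u 1) ∨ ∃ u v, u ≠ v ∧ ∃ a : K, a ≠ 0 ∧
        aeval (R := K) (fun i => (monomial (m i) (c i) : MvPolynomial τ K)) (monomial u (1 : K)) =
          C a * aeval (R := K) (fun i => (monomial (m i) (c i) : MvPolynomial τ K))
            (monomial v (1 : K)) ∧ g = monomial u 1 - monomial v a)} := by
  classical
  set ψ : MvPolynomial σ K →ₐ[K] MvPolynomial τ K :=
    aeval (R := K) (fun i => (monomial (m i) (c i) : MvPolynomial τ K)) with hψ
  set S : Set (MvPolynomial σ K) := {g : MvPolynomial σ K | ψ g = 0 ∧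
      ((∃ u, g = monomial u 1) ∨ ∃ u v, u ≠ v ∧ ∃ a : K, a ≠ 0 ∧
        ψ (monomial u (1 : K)) = C a * ψ (monomial v (1 : K)) ∧ g = monomial u 1 - monomial v a)}
    with hS
  -- every monomial goes to a term
  have hmon : ∀ u : σ →₀ ℕ, ∃ (w : τ →₀ ℕ) (d : K), ψ (monomial u 1) = monomial w d := by
    intro u
    rw [hψ, aeval_monomial, map_one, one_mul]
    induction u using Finsupp.induction with
    | zero => exact ⟨0, 1, by simp⟩
    | single_add i k u hi hk ih =>
      obtain ⟨w, d, h⟩ := ih
      refine ⟨k • m i + w, c i ^ k * d, ?_⟩
      rw [Finsupp.prod_add_index' (by simp) (by intros; rw [pow_add]), h,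
        Finsupp.prod_single_index (by simp), monomial_pow, monomial_mul]
  choose w d hwd using hmon
  have key : ∀ n : ℕ, ∀ F : MvPolynomial σ K, F.support.card = n → ψ F = 0 →
      F ∈ Ideal.span S := by
    intro n
    induction n using Nat.strong_induction_on with
    | _ n ih =>
      intro F hn hF
      by_cases h0 : F = 0
      · rw [h0]; exact zero_mem _
      obtain ⟨u, hu⟩ := (support_nonempty (p := F)).2 h0
      have hcu : F.coeff u ≠ 0 := mem_support_iff.1 hu
      -- removing a term
      have hrem : ∀ (g : MvPolynomial σ K), g ∈ S → g.coeff u = 1 →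
          (∀ x, x ≠ u → g.coeff x ≠ 0 → x ∈ F.support) → F ∈ Ideal.span S := by
        intro g hg hgu hgx
        have h1 : F = (F - C (F.coeff u) * g) + C (F.coeff u) * g := by ring
        rw [h1]
        refine Ideal.add_mem _ ?_ (Ideal.mul_mem_left _ _ (Ideal.subset_span hg))
        have hsub : (F - C (F.coeff u) * g).support ⊆ F.support.erase u := by
          intro x hx
          rw [mem_support_iff, coeff_sub, coeff_C_mul] at hx
          rw [Finset.mem_erase]
          have hxu : x ≠ u := by
            rintro rfl
            apply hx
            rw [hgu, mul_one, sub_self]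
          refine ⟨hxu, ?_⟩
          by_contra hx2
          have h2 : F.coeff x = 0 := notMem_support_iff.1 hx2
          have h3 : g.coeff x = 0 := by
            by_contra h4
            exact hx2 (hgx x hxu h4)
          apply hx
          rw [h2, h3]
          ring
        refine ih _ ?_ _ rfl ?_
        · rw [← hn]
          exact lt_of_le_of_lt (Finset.card_le_card hsub) (Finset.card_erase_lt_of_mem hu)
        · rw [map_sub, hF, map_mul, hg.1]
          ring
      by_cases hdu : d u = 0
      · refine hrem (monomial u 1) ⟨?_, Or.inl ⟨u, rfl⟩⟩ (by rw [coeff_monomial, if_pos rfl]) ?_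
        · rw [hwd, hdu, monomial_zero]
        · intro x hxu hx
          rw [coeff_monomial, if_neg (Ne.symm hxu)] at hx
          exact absurd rfl hx
      · -- another monomial with the same image
        have hex : ∃ v ∈ F.support, v ≠ u ∧ w v = w u ∧ d v ≠ 0 := by
          by_contra hcon
          push Not at hcon
          have h1 : ψ F = ∑ x ∈ F.support, C (F.coeff x) * ψ (monomial x 1) := by
            conv_lhs => rw [F.as_sum]
            rw [map_sum]
            refine Finset.sum_congr rfl fun x _ => ?_
            have : (monomial x (F.coeff x) : MvPolynomial σ K) = C (F.coeff x) * monomial x 1 := by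
              rw [C_mul_monomial, mul_one]
            rw [this, map_mul]
            congr 1
            exact algHom_C ψ _
          have h2 : (ψ F).coeff (w u) = F.coeff u * d u := by
            rw [h1, coeff_sum, Finset.sum_eq_single u]
            · rw [coeff_C_mul, hwd, coeff_monomial, if_pos rfl]
            · intro x hx hxu
              rw [coeff_C_mul, hwd, coeff_monomial]
              split_ifs with h3
              · rw [hcon x hx hxu h3, mul_zero]
              · rw [mul_zero]
            · intro h; exact absurd hu h
          rw [hF, coeff_zero] at h2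
          exact mul_ne_zero hcu hdu h2.symm
        obtain ⟨v, hv, hvu, hwv, hdv⟩ := hex
        have hp : ψ (monomial u (1 : K)) = C (d u / d v) * ψ (monomial v (1 : K)) := by
          rw [hwd, hwd, C_mul_monomial, div_mul_cancel₀ _ hdv, hwv]
        refine hrem (monomial u 1 - monomial v (d u / d v)) ⟨?_, Or.inr ⟨u, v, Ne.symm hvu,
          d u / d v, div_ne_zero hdu hdv, hp, rfl⟩⟩ ?_ ?_
        · have : (monomial v (d u / d v) : MvPolynomial σ K) = C (d u / d v) * monomial v 1 := by
            rw [C_mul_monomial, mul_one]
          rw [map_sub, this, map_mul, hp]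
          rw [show ψ (C (d u / d v)) = C (d u / d v) from algHom_C ψ _, sub_self]
        · rw [coeff_sub, coeff_monomial, coeff_monomial, if_pos rfl, if_neg hvu, sub_zero]
        · intro x hxu hx
          rw [coeff_sub, coeff_monomial, coeff_monomial, if_neg (Ne.symm hxu)] at hx
          by_cases hxv : v = x
          · rw [← hxv]; exact hv
          · rw [if_neg hxv] at hx
            simp at hx
  exact key _ F rfl hF

end Q49.TG
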