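import Pool.Agent.Q49.TG.Tc

/-!
# Setting variables to zero, supports, and parts of lowest weight
-/

set_option autoImplicit false

namespace Q49.TG

open MvPolynomial

section

variable {ν K : Type*} [Field K] (wt : ν → ℕ)

theorem coeff_tau (F : MvPolynomial ν K) (k : ℕ) (u : ν →₀ ℕ) :
    ((tau wt F).coeff k).coeff u = if mwt wt u = k then F.coeff u else 0 := by
  classical
  induction F using MvPolynomial.induction_on' with
  | monomial v a =>
    rw [tau_monomial, Polynomial.coeff_C_mul_X_pow, coeff_monomial]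
    by_cases hv : v = u
    · subst hv
      by_cases hk : k = mwt wt v
      · rw [if_pos hk, if_pos hk.symm, if_pos rfl, coeff_monomial, if_pos rfl]
      · rw [if_neg hk, if_neg (Ne.symm hk), coeff_zero]
    · rw [if_neg hv]
      split_ifs
      · rw [coeff_monomial, if_neg hv]
      · rw [coeff_monomial, if_neg hv]
      · rw [coeff_zero]
      · rw [coeff_zero]
  | add p q hp hq =>
    rw [map_add, Polynomial.coeff_add, coeff_add, hp, hq, coeff_add]
    split_ifs <;> ring

/-- the terms of the part of lowest weight are terms of the polynomial -/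
theorem support_tc {F : MvPolynomial ν K} {u : ν →₀ ℕ} (h : (tc wt F).coeff u ≠ 0) :
    F.coeff u ≠ 0 := by
  unfold tc Polynomial.trailingCoeff at h
  rw [coeff_tau] at h
  split_ifs at h with h1
  · exact h
  · exact absurd rfl h

theorem tc_eq_coeff {F : MvPolynomial ν K} {d : ℕ} (h0 : ∀ k, k < d → (tau wt F).coeff k = 0)
    (hd : (tau wt F).coeff d ≠ 0) : tc wt F = (tau wt F).coeff d := by
  have h : (tau wt F).natTrailingDegree = d := by
    apply le_antisymm
    · exact Polynomial.natTrailingDegree_le_of_ne_zero hd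
    · refine Polynomial.le_natTrailingDegree ?_ h0
      intro hz
      rw [hz, Polynomial.coeff_zero] at hd
      exact hd rfl
  unfold tc
  rw [Polynomial.trailingCoeff, h]

open Classical in
/-- the homomorphism setting the variables in `Z` to zero -/
noncomputable def hz (Z : Set ν) : MvPolynomial ν K →ₐ[K] MvPolynomial ν K :=
  aeval fun v => if v ∈ Z then 0 else X v

theorem hz_mem {Z : Set ν} {v : ν} (h : v ∈ Z) : hz (K := K) Z (X v) = 0 := by
  unfold hz
  rw [aeval_X, if_pos h]

theorem hz_not_mem {Z : Set ν} {v : ν} (h : v ∉ Z) : hz (K := K) Z (X v) = X v := by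
  unfold hz
  rw [aeval_X, if_neg h]

theorem hz_monomial_of_free {Z : Set ν} {u : ν →₀ ℕ} (a : K) (h : ∀ v ∈ Z, u v = 0) :
    hz Z (monomial u a) = monomial u a := by
  unfold hz
  rw [aeval_monomial, monomial_eq]
  congr 1
  refine Finset.prod_congr rfl fun v hv => ?_
  beta_reduce
  rw [if_neg]
  intro hvZ
  exact (Finsupp.mem_support_iff.1 hv) (h v hvZ)

open Classical in
theorem hz_monomial_of_not_free {Z : Set ν} {u : ν →₀ ℕ} (a : K) (h : ¬ ∀ v ∈ Z, u v = 0) :
    hz Z (monomial u a) = 0 := by
  push Not at h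
  obtain ⟨v, hvZ, hv⟩ := h
  unfold hz
  rw [aeval_monomial]
  have : (u.prod fun i k => (if i ∈ Z then 0 else X i : MvPolynomial ν K) ^ k) = 0 := by
    refine Finset.prod_eq_zero (Finsupp.mem_support_iff.2 hv) ?_
    beta_reduce
    rw [if_pos hvZ, zero_pow hv]
  rw [this, mul_zero]

open Classical in
theorem coeff_hz (Z : Set ν) (F : MvPolynomial ν K) (u : ν →₀ ℕ) :
    (hz Z F).coeff u = if ∀ v ∈ Z, u v = 0 then F.coeff u else 0 := by
  induction F using MvPolynomial.induction_on' with
  | monomial w a =>
    by_cases hw : ∀ v ∈ Z, w v = 0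
    · rw [hz_monomial_of_free a hw, coeff_monomial]
      split_ifs with h1 h2 h2
      · rfl
      · rw [h1] at hw
        exact absurd hw h2
      · rfl
      · rfl
    · rw [hz_monomial_of_not_free a hw, coeff_zero, coeff_monomial]
      split_ifs with h1 h2
      · rw [h2] at hw
        exact absurd h1 hw
      · rfl
      · rfl
  | add p q hp hq =>
    rw [map_add, coeff_add, hp, hq, coeff_add]
    split_ifs <;> ring

/-- polynomials fixed by `hz Z` do not involve the variables in `Z` -/
theorem free_of_hz {Z : Set ν} {F : MvPolynomial ν K} (h : hz Z F = F) {u : ν →₀ ℕ}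
    (hu : F.coeff u ≠ 0) : ∀ v ∈ Z, u v = 0 := by
  by_contra hcon
  have h1 := coeff_hz Z F u
  rw [h, if_neg hcon] at h1
  exact hu h1

theorem hz_of_free {Z : Set ν} {F : MvPolynomial ν K}
    (h : ∀ u, F.coeff u ≠ 0 → ∀ v ∈ Z, u v = 0) : hz Z F = F := by
  ext u
  rw [coeff_hz]
  split_ifs with h1
  · rfl
  · by_contra h2
    exact h1 (h u (Ne.symm h2))

theorem hz_subset {Z Z' : Set ν} (hZ : Z' ⊆ Z) {F : MvPolynomial ν K} (h : hz Z F = F) :
    hz Z' F = F :=
  hz_of_free fun _ hu v hv => free_of_hz h hu v (hZ hv)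

theorem tau_hz (Z : Set ν) (F : MvPolynomial ν K) :
    tau wt (hz Z F) = (tau wt F).map
    ((hz Z : MvPolynomial ν K →ₐ[K] MvPolynomial ν K) : MvPolynomial ν K →+* MvPolynomial ν K) := by
  classical
  have h : ((tau wt : MvPolynomial ν K →ₐ[K] _) : MvPolynomial ν K →+* _).comp
      ((hz Z : MvPolynomial ν K →ₐ[K] _) : MvPolynomial ν K →+* MvPolynomial ν K) =
      (Polynomial.mapRingHom ((hz Z : MvPolynomial ν K →ₐ[K] MvPolynomial ν K) :
        MvPolynomial ν K →+* MvPolynomial ν K)).comp
        ((tau wt : MvPolynomial ν K →ₐ[K] _) : MvPolynomial ν K →+* _) := by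
    apply ringHom_ext
    · intro r
      simp only [RingHom.comp_apply, RingHom.coe_coe]
      rw [show hz Z (C r) = C r from algHom_C _ r,
        show tau wt (C r : MvPolynomial ν K) = Polynomial.C (C r) from algHom_C _ r]
      rw [Polynomial.coe_mapRingHom, Polynomial.map_C, RingHom.coe_coe,
        show hz Z (C r) = C r from algHom_C _ r]
    · intro v
      simp only [RingHom.comp_apply, RingHom.coe_coe]
      rw [Polynomial.coe_mapRingHom]
      by_cases hv : v ∈ Z
      · rw [hz_mem hv, map_zero]
        unfold tau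
        rw [aeval_X, Polynomial.map_mul, Polynomial.map_C, RingHom.coe_coe, hz_mem hv, map_zero,
          zero_mul]
      · rw [hz_not_mem hv]
        unfold tau
        rw [aeval_X, Polynomial.map_mul, Polynomial.map_C, RingHom.coe_coe, hz_not_mem hv,
          Polynomial.map_pow, Polynomial.map_X]
  exact DFunLike.congr_fun h F

/-- `hz Z` commutes with taking the part of lowest weight if this part does not vanish -/
theorem tc_hz {Z : Set ν} {F : MvPolynomial ν K} (h : hz Z (tc wt F) ≠ 0) :
    tc wt (hz Z F) = hz Z (tc wt F) := by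
  have h1 : tc wt (hz Z F) = (tau wt (hz Z F)).coeff (tau wt F).natTrailingDegree := by
    apply tc_eq_coeff
    · intro k hk
      rw [tau_hz, Polynomial.coeff_map, Polynomial.coeff_eq_zero_of_lt_natTrailingDegree hk,
        map_zero]
    · rw [tau_hz, Polynomial.coeff_map]
      exact h
  rw [h1, tau_hz, Polynomial.coeff_map]
  rfl

end

/-- powers determine real polynomials up to a sign -/
theorem root_R {ν : Type} (x y : MvPolynomial ν ℝ) (N : ℕ) (hN : N ≠ 0) (h : x ^ N = y ^ N) :
    ∃ ζ : ℝ, x = C ζ * y := by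
  have h1 : x ^ 2 = y ^ 2 := by
    apply MvPolynomial.funext
    intro a
    have h2 := congrArg (eval a) h
    rw [map_pow, map_pow] at h2
    rw [map_pow, map_pow, ← sq_abs, ← sq_abs (eval a y)]
    have h3 : |eval a x| ^ N = |eval a y| ^ N := by rw [← abs_pow, ← abs_pow, h2]
    rw [(pow_left_inj₀ (abs_nonneg _) (abs_nonneg _) hN).1 h3]
  have h2 : (x - y) * (x + y) = 0 := by linear_combination h1
  rcases mul_eq_zero.1 h2 with h3 | h3
  · exact ⟨1, by rw [map_one, one_mul]; exact sub_eq_zero.1 h3⟩
  · refine ⟨-1, ?_⟩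
    rw [map_neg, map_one]
    linear_combination h3

end Q49.TG
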