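import Pool.Agent.Q49.TG.DSepPath
import Pool.Agent.Q49.TG.Hz

/-!
# The polynomial covariance matrix
-/

set_option autoImplicit false

namespace Q49.TG

open MvPolynomial Relation

namespace ADag

variable {n : ℕ} (G : ADag n)

/-- the edges -/
abbrev EE : Type := {e : Fin n × Fin n // G.edge e.1 e.2}

/-- the variables `a_i` and `λ_e` -/
abbrev RR : Type := MvPolynomial (Fin n ⊕ G.EE) ℝ

open Classical in
/-- the matrix `Λ` -/
noncomputable def L : Matrix (Fin n) (Fin n) G.RR :=
  fun i j => if h : G.edge i j then X (Sum.inr ⟨(i, j), h⟩) else 0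

theorem L_edge {i j : Fin n} (h : G.edge i j) : G.L i j = X (Sum.inr ⟨(i, j), h⟩) := dif_pos h

theorem L_not {i j : Fin n} (h : ¬ G.edge i j) : G.L i j = 0 := dif_neg h

open Classical in
/-- the number of ancestors -/
noncomputable def rk (i : Fin n) : ℕ := (Finset.univ.filter fun u => TransGen G.edge u i).card

theorem rk_lt {i j : Fin n} (h : G.edge i j) : G.rk i < G.rk j := by
  classical
  unfold rk
  apply Finset.card_lt_card
  rw [Finset.ssubset_iff_of_subset]
  · refine ⟨i, ?_, ?_⟩
    · rw [Finset.mem_filter]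
      exact ⟨Finset.mem_univ _, TransGen.single h⟩
    · rw [Finset.mem_filter]
      exact fun h => G.acyclic i h.2
  · intro u hu
    rw [Finset.mem_filter] at hu ⊢
    exact ⟨Finset.mem_univ _, hu.2.tail h⟩

theorem rk_lt_n (i : Fin n) : G.rk i < n := by
  classical
  unfold rk
  have h : (Finset.univ.filter fun u => TransGen G.edge u i) ⊂ Finset.univ := by
    rw [Finset.ssubset_univ_iff]
    intro h
    have : i ∈ Finset.univ.filter fun u => TransGen G.edge u i := by
      rw [h]; exact Finset.mem_univ _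
    rw [Finset.mem_filter] at this
    exact G.acyclic i this.2
  have := Finset.card_lt_card h
  rwa [Finset.card_univ, Fintype.card_fin] at this

theorem L_pow (m : ℕ) (i j : Fin n) (h : (G.L ^ m) i j ≠ 0) : G.rk i + m ≤ G.rk j := by
  induction m generalizing j with
  | zero =>
    rw [pow_zero] at h
    by_cases hij : i = j
    · rw [hij]; omega
    · rw [Matrix.one_apply_ne hij] at h
      exact absurd rfl h
  | succ m ih =>
    rw [pow_succ, Matrix.mul_apply] at h
    obtain ⟨k, -, hk⟩ := Finset.exists_ne_zero_of_sum_ne_zero h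
    have h1 := ih k (left_ne_zero_of_mul hk)
    have h2 : G.edge k j := by
      by_contra h3
      rw [G.L_not h3, mul_zero] at hk
      exact hk rfl
    have := G.rk_lt h2
    omega

theorem L_pow_n : G.L ^ n = 0 := by
  ext1 i j
  by_contra h
  have h1 := G.L_pow n i j h
  have := G.rk_lt_n j
  omega

/-- the matrix `(1 - Λ)⁻¹` -/
noncomputable def PM : Matrix (Fin n) (Fin n) G.RR := ∑ m ∈ Finset.range n, G.L ^ m

theorem PM_mul : G.PM * (1 - G.L) = 1 := by
  have h := geom_sum_mul G.L n
  rw [G.L_pow_n] at h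
  unfold PM
  rw [← neg_sub G.L 1, mul_neg, h, zero_sub, neg_neg]

theorem PM_eq : G.PM = 1 + G.PM * G.L := by
  have h := G.PM_mul
  rw [mul_sub, mul_one] at h
  rw [← h]
  abel

theorem PM_apply (t i : Fin n) :
    G.PM t i = (1 : Matrix (Fin n) (Fin n) G.RR) t i + ∑ m, G.PM t m * G.L m i := by
  conv_lhs => rw [G.PM_eq]
  rw [Matrix.add_apply, Matrix.mul_apply]

/-- the polynomial covariance matrix -/
noncomputable def SM : Matrix (Fin n) (Fin n) G.RR :=
  G.PM.transpose * Matrix.diagonal (fun i => X (Sum.inl i)) * G.PM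

theorem SM_apply (i j : Fin n) : G.SM i j = ∑ t, G.PM t i * X (Sum.inl t) * G.PM t j := by
  unfold SM
  rw [Matrix.mul_apply]
  refine Finset.sum_congr rfl fun t _ => ?_
  rw [Matrix.mul_diagonal, Matrix.transpose_apply]

theorem SM_symm (i j : Fin n) : G.SM i j = G.SM j i := by
  rw [SM_apply, SM_apply]
  exact Finset.sum_congr rfl fun t _ => by ring

/-- induction along the edges -/
theorem rk_induction {p : Fin n → Prop} (h : ∀ i, (∀ m, G.edge m i → p m) → p i) (i : Fin n) :
    p i := by
  have key : ∀ k i, G.rk i = k → p i := by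
    intro k
    induction k using Nat.strong_induction_on with
    | _ k ih =>
      intro i hi
      refine h i fun m hm => ih _ ?_ m rfl
      have := G.rk_lt hm
      omega
  exact key _ i rfl

/-- `P_{ji}` vanishes if `i` is not a descendant of `j` -/
theorem PM_zero {i j : Fin n} (h : ¬ ReflTransGen G.edge j i) : G.PM j i = 0 := by
  revert h
  refine G.rk_induction (p := fun i => ¬ ReflTransGen G.edge j i → G.PM j i = 0) ?_ i
  intro i ih h
  have hne : j ≠ i := by
    rintro rfl
    exact h ReflTransGen.refl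
  rw [G.PM_apply, Matrix.one_apply_ne hne, zero_add]
  refine Finset.sum_eq_zero fun m _ => ?_
  by_cases hm : G.edge m i
  · rw [ih m hm fun h1 => h (h1.tail hm), zero_mul]
  · rw [G.L_not hm, mul_zero]

/-- the variables of the edges into `j` -/
def into (j : Fin n) : Set (Fin n ⊕ G.EE) := {v | ∃ e : G.EE, v = Sum.inr e ∧ e.1.2 = j}

/-- `P_{ti}` does not involve the edges into `j` if `i` is not a descendant of `j` -/
theorem PM_free {i j : Fin n} (h : ¬ ReflTransGen G.edge j i) (t : Fin n) :
    hz (G.into j) (G.PM t i) = G.PM t i := by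
  revert h
  refine G.rk_induction (p := fun i => ¬ ReflTransGen G.edge j i →
    hz (G.into j) (G.PM t i) = G.PM t i) ?_ i
  intro i ih h
  have hne : j ≠ i := by
    rintro rfl
    exact h ReflTransGen.refl
  rw [G.PM_apply, map_add, map_sum]
  congr 1
  · rw [Matrix.one_apply]
    split_ifs
    · rw [map_one]
    · rw [map_zero]
  · refine Finset.sum_congr rfl fun m _ => ?_
    by_cases hm : G.edge m i
    · rw [map_mul, ih m hm fun h1 => h (h1.tail hm), G.L_edge hm, hz_not_mem]
      rintro ⟨e, he, he2⟩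
      have h1 := Sum.inr_injective he
      rw [← h1] at he2
      exact hne he2.symm
    · rw [G.L_not hm, mul_zero, map_zero]

theorem SM_free {i m j : Fin n} (hi : ¬ ReflTransGen G.edge j i) (hm : ¬ ReflTransGen G.edge j m) :
    hz (G.into j) (G.SM i m) = G.SM i m := by
  rw [SM_apply, map_sum]
  refine Finset.sum_congr rfl fun t _ => ?_
  rw [map_mul, map_mul, G.PM_free hi, G.PM_free hm, hz_not_mem]
  rintro ⟨e, he, -⟩
  exact absurd he Sum.inl_ne_inr

/-- `s_{ij} = ∑_m s_{im} λ_{mj}` if `i` is not a descendant of `j` -/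
theorem SM_rec {i j : Fin n} (hi : ¬ ReflTransGen G.edge j i) :
    G.SM i j = ∑ m, G.SM i m * G.L m j := by
  have h : G.SM = G.PM.transpose * Matrix.diagonal (fun i => X (Sum.inl i)) + G.SM * G.L := by
    have h2 : G.SM = G.PM.transpose * Matrix.diagonal (fun i => X (Sum.inl i)) *
        (1 + G.PM * G.L) := by
      rw [← G.PM_eq]
      rfl
    have h3 : G.SM * G.L = G.PM.transpose * Matrix.diagonal (fun i => X (Sum.inl i)) *
        (G.PM * G.L) := by
      unfold SM
      rw [mul_assoc]
    refine h2.trans ?_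
    rw [mul_add, mul_one, h3]
  have h1 := congrFun (congrFun h i) j
  rw [Matrix.add_apply, Matrix.mul_diagonal, Matrix.transpose_apply, G.PM_zero hi, zero_mul,
    zero_add, Matrix.mul_apply] at h1
  exact h1

/-! ### the lowest parts -/

/-- the weight -/
def awt : Fin n ⊕ G.EE → ℕ := Sum.elim (fun _ => 0) fun _ => 1

theorem tau_L (i j : Fin n) : tau G.awt (G.L i j) = Polynomial.C (G.L i j) * Polynomial.X := by
  by_cases h : G.edge i j
  · rw [G.L_edge h]
    unfold tau
    rw [aeval_X]
    change _ * Polynomial.X ^ 1 = _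
    rw [pow_one]
  · rw [G.L_not h, map_zero, map_zero, zero_mul]

theorem tau_a (i : Fin n) : tau G.awt (X (Sum.inl i) : G.RR) =
    Polynomial.C (X (Sum.inl i) : G.RR) := by
  unfold tau
  rw [aeval_X]
  change _ * Polynomial.X ^ 0 = _
  rw [pow_zero, mul_one]

theorem tau_one_apply (t i : Fin n) : tau G.awt ((1 : Matrix (Fin n) (Fin n) G.RR) t i) =
    Polynomial.C ((1 : Matrix (Fin n) (Fin n) G.RR) t i) := by
  rw [Matrix.one_apply]
  split_ifs
  · rw [map_one, map_one]
  · rw [map_zero, map_zero]

theorem tau_PM (t i : Fin n) : tau G.awt (G.PM t i) =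
    Polynomial.C ((1 : Matrix (Fin n) (Fin n) G.RR) t i) +
      (∑ m, tau G.awt (G.PM t m) * Polynomial.C (G.L m i)) * Polynomial.X := by
  conv_lhs => rw [G.PM_apply]
  rw [map_add, tau_one_apply, map_sum, Finset.sum_mul]
  congr 1
  refine Finset.sum_congr rfl fun m _ => ?_
  rw [map_mul, tau_L, mul_assoc]

theorem PM_coeff_zero (t i : Fin n) :
    (tau G.awt (G.PM t i)).coeff 0 = (1 : Matrix (Fin n) (Fin n) G.RR) t i := by
  rw [tau_PM, Polynomial.coeff_add, Polynomial.coeff_C_zero, Polynomial.coeff_mul_X_zero, add_zero]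

theorem PM_coeff_one (t i : Fin n) : (tau G.awt (G.PM t i)).coeff 1 = G.L t i := by
  rw [tau_PM, Polynomial.coeff_add, Polynomial.coeff_C_succ, zero_add,
    Polynomial.coeff_mul_X, Polynomial.finsetSum_coeff]
  simp only [Polynomial.coeff_mul_C, PM_coeff_zero]
  rw [Finset.sum_eq_single t]
  · rw [Matrix.one_apply_eq, one_mul]
  · intro m _ hm
    rw [Matrix.one_apply_ne (Ne.symm hm), zero_mul]
  · intro h; exact absurd (Finset.mem_univ _) h

theorem SM_coeff_zero (i j : Fin n) :
    (tau G.awt (G.SM i j)).coeff 0 = if i = j then X (Sum.inl i) else 0 := by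
  rw [SM_apply, map_sum, Polynomial.finsetSum_coeff]
  simp only [map_mul, tau_a, Polynomial.mul_coeff_zero, PM_coeff_zero, Polynomial.coeff_C_zero]
  rw [Finset.sum_eq_single i]
  · rw [Matrix.one_apply_eq, one_mul, Matrix.one_apply]
    split_ifs <;> simp
  · intro m _ hm
    rw [Matrix.one_apply_ne hm, zero_mul, zero_mul]
  · intro h; exact absurd (Finset.mem_univ _) h

theorem SM_coeff_one (i j : Fin n) : (tau G.awt (G.SM i j)).coeff 1 =
    X (Sum.inl i) * G.L i j + G.L j i * X (Sum.inl j) := by
  rw [SM_apply, map_sum, Polynomial.finsetSum_coeff]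
  have h1 : ∀ t, (tau G.awt (G.PM t i * X (Sum.inl t) * G.PM t j)).coeff 1 =
      (1 : Matrix (Fin n) (Fin n) G.RR) t i * (X (Sum.inl t) * G.L t j) +
      (1 : Matrix (Fin n) (Fin n) G.RR) t j * (G.L t i * X (Sum.inl t)) := by
    intro t
    rw [map_mul, map_mul, tau_a, Polynomial.mul_coeff_one, Polynomial.coeff_mul_C,
      Polynomial.coeff_mul_C, PM_coeff_zero, PM_coeff_zero, PM_coeff_one, PM_coeff_one]
    ring
  simp only [h1]
  rw [Finset.sum_add_distrib, Finset.sum_eq_single i, Finset.sum_eq_single j]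
  · rw [Matrix.one_apply_eq, Matrix.one_apply_eq, one_mul, one_mul]
  · intro m _ hm
    rw [Matrix.one_apply_ne hm, zero_mul]
  · intro h; exact absurd (Finset.mem_univ _) h
  · intro m _ hm
    rw [Matrix.one_apply_ne hm, zero_mul]
  · intro h; exact absurd (Finset.mem_univ _) h

theorem tc_diag (i : Fin n) : tc G.awt (G.SM i i) = X (Sum.inl i) := by
  have h : (tau G.awt (G.SM i i)).coeff 0 = X (Sum.inl i) := by rw [SM_coeff_zero, if_pos rfl]
  rw [tc_eq_coeff G.awt (F := G.SM i i) (d := 0) (fun k hk => absurd hk (Nat.not_lt_zero _))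
    (by rw [h]; exact X_ne_zero _), h]

theorem not_edge_of_edge {i j : Fin n} (h : G.edge i j) : ¬ G.edge j i :=
  fun h' => G.acyclic i ((TransGen.single h).tail h')

theorem ne_of_edge {i j : Fin n} (h : G.edge i j) : i ≠ j := by
  rintro rfl
  exact G.acyclic i (TransGen.single h)

theorem tc_edge {k j : Fin n} (h : G.edge k j) :
    tc G.awt (G.SM k j) = X (Sum.inl k) * G.L k j := by
  have h1 : (tau G.awt (G.SM k j)).coeff 1 = X (Sum.inl k) * G.L k j := by
    rw [SM_coeff_one, G.L_not (G.not_edge_of_edge h), zero_mul, add_zero]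
  rw [tc_eq_coeff G.awt (F := G.SM k j) (d := 1) (fun l hl => by
    rw [show l = 0 by omega, SM_coeff_zero, if_neg (G.ne_of_edge h)])
    (by rw [h1, G.L_edge h]; exact mul_ne_zero (X_ne_zero _) (X_ne_zero _)), h1]

/-- If the lowest part of `s_{ij}` is a term, it is `λ_{kj}` times the lowest part of `s_{ik}` for a
parent `k` of `j`. -/
theorem exists_parent {i j : Fin n} (hi : ¬ ReflTransGen G.edge j i) (u : (Fin n ⊕ G.EE) →₀ ℕ)
    (b : ℝ) (hb : b ≠ 0) (h : tc G.awt (G.SM i j) = monomial u b) :
    ∃ k, G.edge k j ∧ tc G.awt (G.SM i j) = tc G.awt (G.SM i k) * G.L k j := by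
  classical
  have hu : (G.SM i j).coeff u ≠ 0 := by
    apply support_tc G.awt
    rw [h, coeff_monomial, if_pos rfl]
    exact hb
  have hrec := G.SM_rec hi
  have hpar : ∀ m, G.edge m j → ¬ ReflTransGen G.edge j m := fun m hm hjm => by
    rcases reflTransGen_iff_eq_or_transGen.1 hjm with h1 | h1
    · exact G.ne_of_edge hm h1
    · exact G.acyclic j (h1.tail hm)
  have hex : ∃ k, (G.SM i k * G.L k j).coeff u ≠ 0 := by
    by_contra hcon
    push Not at hcon
    apply hu
    rw [hrec, coeff_sum]
    exact Finset.sum_eq_zero fun k _ => hcon k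
  obtain ⟨k, hk⟩ := hex
  have hkj : G.edge k j := by
    by_contra h1
    rw [G.L_not h1, mul_zero, coeff_zero] at hk
    exact hk rfl
  refine ⟨k, hkj, ?_⟩
  rw [G.L_edge hkj, coeff_mul_X'] at hk
  split_ifs at hk with hmem
  · set v : Fin n ⊕ G.EE := Sum.inr ⟨(k, j), hkj⟩ with hv
    have hfree := free_of_hz (G.SM_free hi (hpar k hkj)) hk
    -- the other variables
    set Z : Set (Fin n ⊕ G.EE) := G.into j \ {v} with hZ
    have huZ : ∀ w ∈ Z, u w = 0 := by
      rintro w ⟨hw, hwv⟩
      have h1 := hfree w hw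
      rw [Finsupp.tsub_apply, Finsupp.single_apply, if_neg (fun h => hwv h.symm)] at h1
      simpa using h1
    have h1 : hz Z (tc G.awt (G.SM i j)) = tc G.awt (G.SM i j) := by
      rw [h, hz_monomial_of_free b huZ]
    have h2 : hz Z (tc G.awt (G.SM i j)) ≠ 0 := by
      rw [h1, h, Ne, monomial_eq_zero]
      exact hb
    have h3 := tc_hz G.awt h2
    rw [h1] at h3
    rw [← h3, hrec, map_sum, Finset.sum_eq_single k]
    · rw [map_mul, hz_subset Set.sdiff_subset (G.SM_free hi (hpar k hkj)), G.L_edge hkj,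
        hz_not_mem (fun h => h.2 rfl), tc_mul, X, tc_monomial]
    · intro m _ hmk
      by_cases hm : G.edge m j
      · rw [map_mul, G.L_edge hm, hz_mem, mul_zero]
        refine ⟨⟨_, rfl, rfl⟩, ?_⟩
        intro h4
        rw [Set.mem_singleton_iff, hv] at h4
        have h5 := congrArg (fun e : G.EE => e.1.1) (Sum.inr_injective h4)
        exact hmk h5
      · rw [G.L_not hm, mul_zero, map_zero]
    · intro h; exact absurd (Finset.mem_univ _) h
  · exact absurd rfl hk

end ADag

end Q49.TG
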