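import Pool.Agent.Q49.TG.Cov

/-!
# Toric Gaussian DAG ideals have small d-separating sets
-/

set_option autoImplicit false

namespace Q49.TG

open MvPolynomial Relation

/-- independence of the exponents -/
theorem ee_inj_gen {V W : Type} [Fintype V] [Fintype W] (tail : W → V)
    {e : V ⊕ W → (V ⊕ W) →₀ ℕ} (he1 : ∀ i, e (Sum.inl i) = Finsupp.single (Sum.inl i) 1)
    (he2 : ∀ w, e (Sum.inr w) = Finsupp.single (Sum.inl (tail w)) 1 +
      Finsupp.single (Sum.inr w) 1) :
    Function.Injective fun M : (V ⊕ W) →₀ ℕ => M.sum fun q k => k • e q := by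
  classical
  intro M M' h
  have hval : ∀ (M : (V ⊕ W) →₀ ℕ) (v : V ⊕ W),
      (M.sum fun q k => k • e q) v = ∑ q, M q * e q v := by
    intro M v
    rw [Finsupp.sum_fintype _ _ (by simp), Finsupp.finsetSum_apply]
    refine Finset.sum_congr rfl fun q _ => ?_
    rw [Finsupp.smul_apply, smul_eq_mul]
  have hr : ∀ w : W, M (Sum.inr w) = M' (Sum.inr w) := by
    intro w
    have h1 : ∀ M : (V ⊕ W) →₀ ℕ,
        (M.sum fun q k => k • e q) (Sum.inr w) = M (Sum.inr w) := by
      intro M
      rw [hval, Finset.sum_eq_single (Sum.inr w)]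
      · simp [he2]
      · rintro (i | w') _ hne
        · simp [he1]
        · have : w' ≠ w := fun h => hne (by rw [h])
          simp [he2, this]
      · intro h; exact absurd (Finset.mem_univ _) h
    rw [← h1 M, ← h1 M']
    exact DFunLike.congr_fun h _
  ext v
  rcases v with i | w
  · have h1 : ∀ M : (V ⊕ W) →₀ ℕ, (M.sum fun q k => k • e q) (Sum.inl i) =
        M (Sum.inl i) + ∑ w : W, M (Sum.inr w) * e (Sum.inr w) (Sum.inl i) := by
      intro M
      rw [hval, Fintype.sum_sum_type]
      congr 1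
      rw [Finset.sum_eq_single i]
      · simp [he1]
      · intro i' _ hne
        simp [he1, hne]
      · intro h; exact absurd (Finset.mem_univ _) h
    have h2 := DFunLike.congr_fun h (Sum.inl i)
    beta_reduce at h2
    rw [h1, h1] at h2
    simp only [hr] at h2
    exact Nat.add_right_cancel h2
  · exact hr w

namespace ADag

variable {n : ℕ} (G : ADag n)

/-! ### evaluation -/

section eval

variable (x : Fin n ⊕ G.EE → ℝ)

/-- the value of `Λ` -/
noncomputable def Lx : Matrix (Fin n) (Fin n) ℝ := (eval x).mapMatrix G.L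

/-- the value of `(1 - Λ)⁻¹` -/
noncomputable def Px : Matrix (Fin n) (Fin n) ℝ := (eval x).mapMatrix G.PM

theorem Px_mul : G.Px x * (1 - G.Lx x) = 1 := by
  have h := congrArg (eval x).mapMatrix G.PM_mul
  rw [map_mul, map_sub, map_one] at h
  exact h

theorem inv_eq : (1 - G.Lx x)⁻¹ = G.Px x := Matrix.inv_eq_left_inv (G.Px_mul x)

theorem Px_apply (t i : Fin n) :
    G.Px x t i = (if t = i then 1 else 0) + ∑ m, G.Px x t m * G.Lx x m i := by
  have h : eval x (G.PM t i) = eval x ((1 : Matrix (Fin n) (Fin n) G.RR) t i +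
      ∑ m, G.PM t m * G.L m i) := congrArg (eval x) (G.PM_apply t i)
  rw [map_add, map_sum, Matrix.one_apply] at h
  refine h.trans ?_
  congr 1
  · split_ifs
    · rw [map_one]
    · rw [map_zero]
  · refine Finset.sum_congr rfl fun m _ => ?_
    rw [map_mul]
    rfl

theorem eval_SM (i j : Fin n) :
    eval x (G.SM i j) = ∑ t, G.Px x t i * x (Sum.inl t) * G.Px x t j := by
  rw [SM_apply, map_sum]
  refine Finset.sum_congr rfl fun t _ => ?_
  rw [map_mul, map_mul, eval_X]
  rfl

theorem eval_SM' : (eval x).mapMatrix G.SM = ((1 - G.Lx x)⁻¹).transpose *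
    Matrix.diagonal (fun i => x (Sum.inl i)) * (1 - G.Lx x)⁻¹ := by
  rw [G.inv_eq]
  ext i j
  rw [Matrix.mul_apply]
  change eval x (G.SM i j) = _
  rw [eval_SM]
  refine Finset.sum_congr rfl fun t _ => ?_
  rw [Matrix.mul_diagonal, Matrix.transpose_apply]

end eval

/-- the family of the entries of the covariance matrix -/
noncomputable def s (p : Prs n) : G.RR := G.SM p.1.1 p.1.2

theorem eval_aeval (x : Fin n ⊕ G.EE → ℝ) (f : MvPolynomial (Prs n) ℝ) :
    eval x (aeval G.s f) = aeval (fun p => eval x (G.s p)) f := by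
  induction f using MvPolynomial.induction_on with
  | C a => simp
  | add p q hp hq => simp only [map_add, hp, hq]
  | mul_X p m hp => simp only [map_mul, hp, aeval_X]

/-- the vanishing ideal is the kernel of `σ_{ij} ↦ s_{ij}` -/
theorem vanishingIdeal_eq : G.vanishingIdeal = RingHom.ker (aeval (R := ℝ) G.s) := by
  ext f
  unfold vanishingIdeal
  rw [mem_vanishingIdeal_iff, RingHom.mem_ker]
  constructor
  · intro h
    refine funext_set (R := ℝ) (fun v => match v with
      | Sum.inl _ => Set.Ioi (0 : ℝ)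
      | Sum.inr _ => Set.univ) ?_ ?_
    · rintro (i | e)
      · exact Set.Ioi_infinite 0
      · exact Set.infinite_univ
    · intro x hx
      rw [map_zero, eval_aeval]
      refine h _ ⟨(eval x).mapMatrix G.SM, ⟨G.Lx x, fun i => x (Sum.inl i), ?_, ?_, ?_⟩, rfl⟩
      · intro i j hij
        change eval x (G.L i j) = 0
        rw [G.L_not hij, map_zero]
      · intro i
        exact hx (Sum.inl i) trivial
      · exact G.eval_SM' x
  · rintro h y ⟨M, ⟨Λ, ω, hΛ, hω, hM⟩, rfl⟩
    set x : Fin n ⊕ G.EE → ℝ := Sum.elim ω fun e => Λ e.1.1 e.1.2 with hx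
    have h1 : G.Lx x = Λ := by
      ext i j
      change eval x (G.L i j) = _
      by_cases hij : G.edge i j
      · rw [G.L_edge hij, eval_X]
        rfl
      · rw [G.L_not hij, map_zero, hΛ i j hij]
    have h2 : (eval x).mapMatrix G.SM = M := by
      rw [G.eval_SM', h1, hM]
      rfl
    have h3 : (fun p : Prs n => M p.1.1 p.1.2) = fun p => eval x (G.s p) := by
      funext p
      rw [← h2]
      rfl
    rw [h3, ← eval_aeval, h, map_zero]

/-! ### zero-one points -/

section zo

variable {T : Fin n → Fin n → Prop}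

open Classical in
/-- the point with `a_i = 1`, `λ_e = 1` for the edges in `T` and `λ_e = 0` for the others -/
noncomputable def pt (T : Fin n → Fin n → Prop) : Fin n ⊕ G.EE → ℝ :=
  Sum.elim (fun _ => 1) fun e => if T e.1.1 e.1.2 then 1 else 0

open Classical in
theorem Lx_pt (hT : ∀ a b, T a b → G.edge a b) (i j : Fin n) :
    G.Lx (G.pt T) i j = if T i j then 1 else 0 := by
  change eval (G.pt T) (G.L i j) = _
  by_cases h : G.edge i j
  · rw [G.L_edge h, eval_X]
    rfl
  · rw [G.L_not h, map_zero, if_neg fun h1 => h (hT i j h1)]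

theorem Px_nonneg (hT : ∀ a b, T a b → G.edge a b) (t i : Fin n) : 0 ≤ G.Px (G.pt T) t i := by
  classical
  refine G.rk_induction (p := fun i => 0 ≤ G.Px (G.pt T) t i) ?_ i
  intro i ih
  rw [G.Px_apply]
  refine add_nonneg (by split_ifs <;> norm_num) (Finset.sum_nonneg fun m _ => ?_)
  rw [G.Lx_pt hT]
  split_ifs with h
  · rw [mul_one]
    exact ih m (hT _ _ h)
  · rw [mul_zero]

theorem Px_pos (hT : ∀ a b, T a b → G.edge a b) {t i : Fin n} (h : ReflTransGen T t i) :
    0 < G.Px (G.pt T) t i := by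
  classical
  induction h with
  | refl =>
    rw [G.Px_apply, if_pos rfl]
    refine add_pos_of_pos_of_nonneg one_pos (Finset.sum_nonneg fun m _ => ?_)
    rw [G.Lx_pt hT]
    refine mul_nonneg (G.Px_nonneg hT _ _) (by split_ifs <;> norm_num)
  | @tail b c _ hbc ih =>
    rw [G.Px_apply]
    refine add_pos_of_nonneg_of_pos (by split_ifs <;> norm_num) ?_
    refine Finset.sum_pos' (fun m _ => ?_) ⟨b, Finset.mem_univ _, ?_⟩
    · rw [G.Lx_pt hT]
      exact mul_nonneg (G.Px_nonneg hT _ _) (by split_ifs <;> norm_num)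
    · rw [G.Lx_pt hT, if_pos hbc, mul_one]
      exact ih

theorem rtg_of_Px (hT : ∀ a b, T a b → G.edge a b) {t i : Fin n} (h : G.Px (G.pt T) t i ≠ 0) :
    ReflTransGen T t i := by
  classical
  revert h
  refine G.rk_induction (p := fun i => G.Px (G.pt T) t i ≠ 0 → ReflTransGen T t i) ?_ i
  intro i ih h
  by_cases hti : t = i
  · rw [hti]
  · rw [G.Px_apply, if_neg hti, zero_add] at h
    obtain ⟨m, -, hm⟩ := Finset.exists_ne_zero_of_sum_ne_zero h
    rw [G.Lx_pt hT] at hm
    split_ifs at hm with hmi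
    · rw [mul_one] at hm
      exact (ih m (hT _ _ hmi) hm).tail hmi
    · rw [mul_zero] at hm
      exact absurd rfl hm

theorem SM_pos (hT : ∀ a b, T a b → G.edge a b) {i j t : Fin n} (h1 : ReflTransGen T t i)
    (h2 : ReflTransGen T t j) : 0 < eval (G.pt T) (G.SM i j) := by
  rw [eval_SM]
  refine Finset.sum_pos' (fun m _ => ?_) ⟨t, Finset.mem_univ _, ?_⟩
  · change 0 ≤ _ * 1 * _
    rw [mul_one]
    exact mul_nonneg (G.Px_nonneg hT _ _) (G.Px_nonneg hT _ _)
  · change 0 < _ * 1 * _
    rw [mul_one]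
    exact mul_pos (G.Px_pos hT h1) (G.Px_pos hT h2)

theorem SM_zero (hT : ∀ a b, T a b → G.edge a b) {i j : Fin n}
    (h : ¬ ∃ t, ReflTransGen T t i ∧ ReflTransGen T t j) : eval (G.pt T) (G.SM i j) = 0 := by
  rw [eval_SM]
  refine Finset.sum_eq_zero fun t _ => ?_
  by_contra h1
  exact h ⟨t, G.rtg_of_Px hT (left_ne_zero_of_mul (left_ne_zero_of_mul h1)),
    G.rtg_of_Px hT (right_ne_zero_of_mul h1)⟩

end zo

/-! ### the data -/

/-- the unordered pair -/
def mkp (a b : Fin n) : Prs n := if h : a ≤ b then ⟨(a, b), h⟩ else ⟨(b, a), (not_le.1 h).le⟩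

theorem s_mkp (a b : Fin n) : G.s (mkp a b) = G.SM a b := by
  unfold mkp s
  split_ifs
  · rfl
  · exact G.SM_symm b a

theorem mkp_eq {a b c d : Fin n} (h : mkp a b = mkp c d) : (a = c ∧ b = d) ∨ (a = d ∧ b = c) := by
  unfold mkp at h
  split_ifs at h with h1 h2 h2
  · have h3 := congrArg (fun p : Prs n => p.1.1) h
    have h4 := congrArg (fun p : Prs n => p.1.2) h
    exact Or.inl ⟨h3, h4⟩
  · have h3 := congrArg (fun p : Prs n => p.1.1) h
    have h4 := congrArg (fun p : Prs n => p.1.2) h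
    exact Or.inr ⟨h3, h4⟩
  · have h3 := congrArg (fun p : Prs n => p.1.1) h
    have h4 := congrArg (fun p : Prs n => p.1.2) h
    exact Or.inr ⟨h4, h3⟩
  · have h3 := congrArg (fun p : Prs n => p.1.1) h
    have h4 := congrArg (fun p : Prs n => p.1.2) h
    exact Or.inl ⟨h4, h3⟩

/-- the pairs `(i, i)` and the edges -/
def jj : Fin n ⊕ G.EE → Prs n := Sum.elim (fun i => mkp i i) fun e => mkp e.1.1 e.1.2

theorem jj_inj : Function.Injective G.jj := by
  rintro (i | e) (i' | e') h
  · rcases mkp_eq h with ⟨h1, -⟩ | ⟨h1, -⟩ <;> rw [h1]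
  · exfalso
    rcases mkp_eq h with ⟨h1, h2⟩ | ⟨h1, h2⟩
    · exact G.ne_of_edge e'.2 (h1.symm.trans h2)
    · exact G.ne_of_edge e'.2 (h2.symm.trans h1)
  · exfalso
    rcases mkp_eq h with ⟨h1, h2⟩ | ⟨h1, h2⟩
    · exact G.ne_of_edge e.2 (h1.trans h2.symm)
    · exact G.ne_of_edge e.2 (h1.trans h2.symm)
  · rcases mkp_eq h with ⟨h1, h2⟩ | ⟨h1, h2⟩
    · rw [Subtype.ext (Prod.ext h1 h2)]
    · exfalso
      have h3 := e.2
      rw [h1, h2] at h3
      exact G.not_edge_of_edge e'.2 h3

/-- the data for the general theorem -/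
noncomputable def setup [Fintype G.EE] (S : Set (MvPolynomial (Prs n) ℝ))
    (hS : ∀ f ∈ S, f.support.card ≤ 2) (hI : G.vanishingIdeal = Ideal.span S) :
    Setup ℝ (Prs n) (Fin n ⊕ G.EE) (Fin n ⊕ G.EE) where
  wt := G.awt
  s := G.s
  j := G.jj
  j_inj := G.jj_inj
  card_le := le_rfl
  e := Sum.elim (fun i => Finsupp.single (Sum.inl i) 1)
    fun e => Finsupp.single (Sum.inl e.1.1) 1 + Finsupp.single (Sum.inr e) 1
  tc_j := by
    rintro (i | e)
    · change tc G.awt (G.s (mkp i i)) = monomial (Finsupp.single (Sum.inl i) 1) 1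
      rw [s_mkp, tc_diag]
      rfl
    · change tc G.awt (G.s (mkp e.1.1 e.1.2)) =
        monomial (Finsupp.single (Sum.inl e.1.1) 1 + Finsupp.single (Sum.inr e) 1) 1
      rw [s_mkp, G.tc_edge e.2, G.L_edge e.2, X, X, monomial_mul, one_mul]
  e_inj := ee_inj_gen (fun e : G.EE => e.1.1) (fun _ => rfl) fun _ => rfl
  root := root_R
  S := S
  two := hS
  ker_eq := by rw [← G.vanishingIdeal_eq, hI]

/-- the condition violated by pairs that are not separated by `k` -/
def Bad (k i j : Fin n) : Prop :=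
  (∃ t, ReflTransGen (Away G.edge k) t i ∧ ReflTransGen (Away G.edge k) t j) ∨
    ((∃ t, ReflTransGen (Out G.edge k) t i ∧ ReflTransGen (Out G.edge k) t k) ∧
      ∃ t, ReflTransGen (Out G.edge k) t j ∧ ReflTransGen (Out G.edge k) t k)

variable {G}

theorem Bad.symm {k i j : Fin n} (h : G.Bad k i j) : G.Bad k j i := by
  rcases h with ⟨t, h1, h2⟩ | ⟨h1, h2⟩
  · exact Or.inl ⟨t, h2, h1⟩
  · exact Or.inr ⟨h2, h1⟩

theorem out_away {k t i : Fin n} (h : ReflTransGen (Out G.edge k) t i) (hik : i ≠ k) :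
    ReflTransGen (Away G.edge k) t i := by
  induction h with
  | refl => exact ReflTransGen.refl
  | @tail b c _ hbc ih => exact (ih hbc.2).tail ⟨hbc.1, hbc.2, hik⟩

/-- no vertex has an edge into `k` in `Away` -/
theorem away_to {k t : Fin n} (h : ReflTransGen (Away G.edge k) t k) : t = k := by
  rcases ReflTransGen.cases_tail h with h | ⟨b, -, hb⟩
  · exact h.symm
  · exact absurd rfl hb.2.2

theorem away_from {k i : Fin n} (h : ReflTransGen (Away G.edge k) k i) : i = k := by
  rcases ReflTransGen.cases_head h with h | ⟨b, hb, -⟩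
  · exact h.symm
  · exact absurd rfl hb.2.1

/-- the polynomial identity excludes bad pairs -/
theorem not_bad {i j k : Fin n} (hik : i ≠ k) (hjk : j ≠ k)
    (h : G.SM i j * G.SM k k = G.SM i k * G.SM k j) : ¬ G.Bad k i j := by
  intro hbad
  by_cases hA : ∃ t, ReflTransGen (Away G.edge k) t i ∧ ReflTransGen (Away G.edge k) t j
  · obtain ⟨t, h1, h2⟩ := hA
    have hT : ∀ a b, Away G.edge k a b → G.edge a b := fun a b h => h.1
    have h3 := G.SM_pos hT h1 h2
    have h4 := G.SM_pos hT (ReflTransGen.refl (a := k)) ReflTransGen.refl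
    have h5 : eval (G.pt (Away G.edge k)) (G.SM i k) = 0 := by
      refine G.SM_zero hT ?_
      rintro ⟨t, ht1, ht2⟩
      rw [away_to ht2] at ht1
      exact hik (away_from ht1)
    have h6 := congrArg (eval (G.pt (Away G.edge k))) h
    rw [map_mul, map_mul, h5, zero_mul] at h6
    exact (mul_pos h3 h4).ne' h6
  · rcases hbad with hbad | ⟨⟨t, h1, h2⟩, t', h3, h4⟩
    · exact hA hbad
    · have hT : ∀ a b, Out G.edge k a b → G.edge a b := fun a b h => h.1
      have h5 := G.SM_pos hT h1 h2
      have h6 := G.SM_pos hT h4 h3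
      have h7 : eval (G.pt (Out G.edge k)) (G.SM i j) = 0 := by
        refine G.SM_zero hT ?_
        rintro ⟨t, ht1, ht2⟩
        exact hA ⟨t, out_away ht1 hik, out_away ht2 hjk⟩
      have h8 := congrArg (eval (G.pt (Out G.edge k))) h
      rw [map_mul, map_mul, h7, zero_mul] at h8
      exact (mul_pos h5 h6).ne' h8.symm

/-- the main step -/
theorem exists_sep {S : Set (MvPolynomial (Prs n) ℝ)} (hS : ∀ f ∈ S, f.support.card ≤ 2)
    (hI : G.vanishingIdeal = Ideal.span S) {i j : Fin n} (hij : ¬ G.edge i j)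
    (hdesc : ¬ ReflTransGen G.edge j i) :
    (¬ ∃ t, ReflTransGen G.edge t i ∧ ReflTransGen G.edge t j) ∨
      ∃ k, k ≠ i ∧ k ≠ j ∧ ¬ G.Bad k i j := by
  classical
  have : Fintype G.EE := Fintype.ofFinite _
  let D := G.setup S hS hI
  by_cases h0 : G.SM i j = 0
  · left
    rintro ⟨t, h1, h2⟩
    have h3 := G.SM_pos (fun _ _ h => h) h1 h2
    rw [h0, map_zero] at h3
    exact lt_irrefl 0 h3
  · right
    have h1 : D.Rel (G.SM i j) := by
      have := D.rel_s (p := mkp i j) (by
        change G.s (mkp i j) ≠ 0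
        rw [s_mkp]
        exact h0)
      change D.Rel (G.s (mkp i j)) at this
      rwa [s_mkp] at this
    obtain ⟨u, b, hb, hu⟩ := Setup.Rel.tc_eq D h1
    obtain ⟨k, hkj, hk⟩ := G.exists_parent hdesc u b hb hu
    have hki : k ≠ i := fun h => hij (h ▸ hkj)
    have hkj' : k ≠ j := G.ne_of_edge hkj
    refine ⟨k, hki, hkj', not_bad (Ne.symm hki) (Ne.symm hkj') ?_⟩
    have hval : ∀ a b c d : Fin n, aeval G.s (monomial (Finsupp.single (mkp a b) 1 +
        Finsupp.single (mkp c d) 1) (1 : ℝ)) = G.SM a b * G.SM c d := by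
      intro a b c d
      have : (monomial (Finsupp.single (mkp a b) 1 + Finsupp.single (mkp c d) 1) (1 : ℝ) :
          MvPolynomial (Prs n) ℝ) = X (mkp a b) * X (mkp c d) := by
        rw [X, X, monomial_mul, one_mul]
      rw [this, map_mul, aeval_X, aeval_X, s_mkp, s_mkp]
    have hne1 : G.SM k k ≠ 0 := by
      intro h
      have := G.tc_diag k
      rw [h, tc_zero] at this
      exact X_ne_zero _ this.symm
    have hne2 : G.SM k j ≠ 0 := by
      intro h
      have := G.tc_edge hkj
      rw [h, tc_zero, G.L_edge hkj] at this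
      exact mul_ne_zero (X_ne_zero _) (X_ne_zero _) this.symm
    have hne3 : G.SM i k ≠ 0 := by
      intro h
      rw [h, tc_zero, zero_mul] at hk
      exact tc_ne_zero _ h0 hk
    have h2 := D.mon_eq_of_tc (u := Finsupp.single (mkp i j) 1 + Finsupp.single (mkp k k) 1)
      (v := Finsupp.single (mkp i k) 1 + Finsupp.single (mkp k j) 1) (a := 1) one_ne_zero
      (by
        change aeval G.s _ ≠ 0
        rw [hval]
        exact mul_ne_zero h0 hne1)
      (by
        change aeval G.s _ ≠ 0
        rw [hval]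
        exact mul_ne_zero hne3 hne2)
      (by
        change tc G.awt (aeval G.s _) = C 1 * tc G.awt (aeval G.s _)
        rw [hval, hval, map_one, one_mul, tc_mul, tc_mul, hk, tc_diag, G.tc_edge hkj]
        ring)
    change aeval G.s _ = C 1 * aeval G.s _ at h2
    rw [hval, hval, map_one, one_mul] at h2
    exact h2

/-- If the vanishing ideal is generated by polynomials with at most two terms, then any two
nonadjacent vertices are d-separated by a set with at most one element. -/
theorem exists_dsep (hG : GeneratedByBinomials G.vanishingIdeal) {i j : Fin n} (hne : i ≠ j)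
    (hij : ¬ G.edge i j) (hji : ¬ G.edge j i) :
    ∃ C : Finset (Fin n), C.card ≤ 1 ∧ i ∉ C ∧ j ∉ C ∧ G.DSeparates C i j := by
  classical
  obtain ⟨S, hS, hI⟩ := hG
  have key : (¬ ∃ t, ReflTransGen G.edge t i ∧ ReflTransGen G.edge t j) ∨
      ∃ k, k ≠ i ∧ k ≠ j ∧ ¬ G.Bad k i j := by
    by_cases hdesc : ReflTransGen G.edge j i
    · have hdesc' : ¬ ReflTransGen G.edge i j := by
        intro h
        rcases reflTransGen_iff_eq_or_transGen.1 h with h1 | h1
        · exact hne h1.symm
        · exact G.acyclic i (h1.trans_left hdesc)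
      rcases exists_sep hS hI hji hdesc' with h | ⟨k, h1, h2, h3⟩
      · exact Or.inl fun ⟨t, h1, h2⟩ => h ⟨t, h2, h1⟩
      · exact Or.inr ⟨k, h2, h1, fun h => h3 h.symm⟩
    · exact exists_sep hS hI hij hdesc
  rcases key with h | ⟨k, h1, h2, h3⟩
  · refine ⟨∅, by simp, Finset.notMem_empty _, Finset.notMem_empty _, ?_⟩
    by_contra hcon
    exact h (of_not_dsep_empty hcon)
  · refine ⟨{k}, by simp, by simpa using Ne.symm h1, by simpa using Ne.symm h2, ?_⟩
    by_contra hcon
    exact h3 (of_not_dsep (Ne.symm h1) (Ne.symm h2) hcon)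

end ADag

end Q49.TG
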