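import Mathlib

/-!
# Gaussian DAG models, their vanishing ideals, and d-separation
-/

set_option autoImplicit false

namespace Q49.TG

open MvPolynomial

/-- A directed acyclic graph on the vertices `0, …, n-1`. -/
structure ADag (n : ℕ) where
  /-- `edge i j` says that `i → j` is an edge -/
  edge : Fin n → Fin n → Prop
  acyclic : ∀ i, ¬ Relation.TransGen edge i i

/-- the index set of the variables `σ_{ij}`, `i ≤ j` -/
abbrev Prs (n : ℕ) : Type := {p : Fin n × Fin n // p.1 ≤ p.2}

namespace ADag

variable {n : ℕ} (G : ADag n)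

/-- The covariance matrices of the Gaussian DAG model: `Σ = (I - Λ)^{-T} Ω (I - Λ)^{-1}` with
`Λ` supported on the edges and `Ω` diagonal and positive definite. -/
def IsCovariance (M : Matrix (Fin n) (Fin n) ℝ) : Prop :=
  ∃ (Λ : Matrix (Fin n) (Fin n) ℝ) (ω : Fin n → ℝ), (∀ i j, ¬ G.edge i j → Λ i j = 0) ∧
    (∀ i, 0 < ω i) ∧ M = ((1 - Λ)⁻¹).transpose * Matrix.diagonal ω * (1 - Λ)⁻¹

/-- The vanishing ideal `I_G`: the polynomials in `σ_{ij}`, `i ≤ j`, that vanish on all covariance
matrices of the model. -/
noncomputable def vanishingIdeal : Ideal (MvPolynomial (Prs n) ℝ) :=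
  MvPolynomial.vanishingIdeal ℝ {x : Prs n → ℝ | ∃ M, G.IsCovariance M ∧ x = fun p => M p.1.1 p.1.2}

/-- the underlying undirected graph -/
def skel : SimpleGraph (Fin n) where
  Adj i j := G.edge i j ∨ G.edge j i
  symm := ⟨fun _ _ h => h.symm⟩
  loopless := ⟨fun i h => by
    rcases h with h | h <;> exact G.acyclic i (Relation.TransGen.single h)⟩

/-- The `k`-th vertex of the path is a collider: both path edges at this vertex point into it. -/
def IsCollider {i j : Fin n} (p : G.skel.Walk i j) (k : ℕ) : Prop :=
  G.edge (p.getVert (k - 1)) (p.getVert k) ∧ G.edge (p.getVert (k + 1)) (p.getVert k)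

/-- `C` d-separates `i` and `j`: every path from `i` to `j` either has an interior vertex in `C`
that is not a collider, or has an interior vertex `c` that is a collider such that neither `c` nor
any descendant of `c` lies in `C`. -/
def DSeparates (C : Finset (Fin n)) (i j : Fin n) : Prop :=
  ∀ p : G.skel.Walk i j, p.IsPath →
    (∃ k, 0 < k ∧ k < p.length ∧ ¬ G.IsCollider p k ∧ p.getVert k ∈ C) ∨
    ∃ k, 0 < k ∧ k < p.length ∧ G.IsCollider p k ∧
      ∀ d, Relation.ReflTransGen G.edge (p.getVert k) d → d ∉ C

end ADag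

/-- The ideal is generated by polynomials with at most two terms. -/
def GeneratedByBinomials {σ : Type} (I : Ideal (MvPolynomial σ ℝ)) : Prop :=
  ∃ S : Set (MvPolynomial σ ℝ), (∀ f ∈ S, f.support.card ≤ 2) ∧ I = Ideal.span S

/-- The ideal is toric: it is prime and generated by binomials. -/
def IsToricIdeal {σ : Type} (I : Ideal (MvPolynomial σ ℝ)) : Prop :=
  I.IsPrime ∧ GeneratedByBinomials I

end Q49.TG
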