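import Pool.Agent.Q49.TG.DSepDef

/-!
# Active paths
-/

set_option autoImplicit false

namespace Q49.TG

open Relation

section walk

variable {V : Type*} {E : V → V → Prop}

/-- the edges that do not leave `k` -/
def Out (E : V → V → Prop) (k : V) : V → V → Prop := fun a b => E a b ∧ a ≠ k

/-- the edges that are not incident with `k` -/
def Away (E : V → V → Prop) (k : V) : V → V → Prop := fun a b => E a b ∧ a ≠ k ∧ b ≠ k

theorem away_out {k a b : V} (h : ReflTransGen (Away E k) a b) : ReflTransGen (Out E k) a b :=
  h.lift id fun _ _ h => ⟨h.1, h.2.1⟩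

/-- a directed walk to `k` can be cut at its first arrival at `k` -/
theorem rtg_out {k a : V} (h : ReflTransGen E a k) : ReflTransGen (Out E k) a k := by
  induction h using ReflTransGen.head_induction_on with
  | refl => exact ReflTransGen.refl
  | @head a b hab _ ih =>
    by_cases hak : a = k
    · rw [hak]
    · exact ReflTransGen.head ⟨hab, hak⟩ ih

/-- the end points of an active path given `k` -/
theorem active (hE : ∀ a, ¬ TransGen E a a) {k i j : V} (hik : i ≠ k) (hjk : j ≠ k) (m : ℕ)
    (v : ℕ → V) (h0 : v 0 = i) (hm : v m = j)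
    (hadj : ∀ l, l < m → E (v l) (v (l + 1)) ∨ E (v (l + 1)) (v l))
    (hnc : ∀ l, 0 < l → l < m → ¬ (E (v (l - 1)) (v l) ∧ E (v (l + 1)) (v l)) → v l ≠ k)
    (hc : ∀ l, 0 < l → l < m → E (v (l - 1)) (v l) ∧ E (v (l + 1)) (v l) →
      ReflTransGen E (v l) k) :
    (∃ t, ReflTransGen (Away E k) t i ∧ ReflTransGen (Away E k) t j) ∨
    ∃ t, ReflTransGen (Out E k) t i ∧ ReflTransGen (Out E k) t k := by
  have key : ∀ l, l ≤ m → (∃ t, ReflTransGen (Out E k) t i ∧ ReflTransGen (Out E k) t k) ∨
      (v l ≠ k ∧ ∃ t, ReflTransGen (Away E k) t i ∧ ReflTransGen (Away E k) t (v l) ∧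
        (t = v l ∨ (0 < l ∧ E (v (l - 1)) (v l)))) := by
    intro l
    induction l with
    | zero =>
      intro _
      right
      rw [h0]
      exact ⟨hik, i, ReflTransGen.refl, ReflTransGen.refl, Or.inl rfl⟩
    | succ l ih =>
      intro hl
      rcases ih (by omega) with h | ⟨hvk, t, hti, htv, hst⟩
      · exact Or.inl h
      · rcases hadj l (by omega) with hfw | hbw
        · -- forward edge
          by_cases hw : v (l + 1) = k
          · left
            refine ⟨t, away_out hti, (away_out htv).tail ⟨?_, hvk⟩⟩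
            rw [← hw]
            exact hfw
          · right
            exact ⟨hw, t, hti, htv.tail ⟨hfw, hvk, hw⟩, Or.inr ⟨by omega, hfw⟩⟩
        · rcases hst with rfl | ⟨hl0, hlast⟩
          · -- going up
            have hw : v (l + 1) ≠ k := by
              rcases Nat.lt_or_ge (l + 1) m with h1 | h1
              · refine hnc (l + 1) (by omega) h1 ?_
                rintro ⟨h2, -⟩
                exact hE _ (TransGen.tail (TransGen.single h2) hbw)
              · rw [show l + 1 = m by omega, hm]
                exact hjk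
            right
            exact ⟨hw, v (l + 1), ReflTransGen.head ⟨hbw, hw, hvk⟩ hti, ReflTransGen.refl,
              Or.inl rfl⟩
          · -- a collider
            left
            exact ⟨t, away_out hti, (away_out htv).trans (rtg_out (hc l hl0 (by omega)
              ⟨hlast, hbw⟩))⟩
  rcases key m le_rfl with h | ⟨-, t, hti, htv, -⟩
  · exact Or.inr h
  · left
    rw [hm] at htv
    exact ⟨t, hti, htv⟩

/-- the end points of a path without colliders -/
theorem active_empty {i j : V} (m : ℕ)
    (v : ℕ → V) (h0 : v 0 = i) (hm : v m = j)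
    (hadj : ∀ l, l < m → E (v l) (v (l + 1)) ∨ E (v (l + 1)) (v l))
    (hc : ∀ l, 0 < l → l < m → ¬ (E (v (l - 1)) (v l) ∧ E (v (l + 1)) (v l))) :
    ∃ t, ReflTransGen E t i ∧ ReflTransGen E t j := by
  have key : ∀ l, l ≤ m → ∃ t, ReflTransGen E t i ∧ ReflTransGen E t (v l) ∧
        (t = v l ∨ (0 < l ∧ E (v (l - 1)) (v l))) := by
    intro l
    induction l with
    | zero =>
      intro _
      rw [h0]
      exact ⟨i, ReflTransGen.refl, ReflTransGen.refl, Or.inl rfl⟩
    | succ l ih =>
      intro hl
      obtain ⟨t, hti, htv, hst⟩ := ih (by omega)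
      rcases hadj l (by omega) with hfw | hbw
      · exact ⟨t, hti, htv.tail hfw, Or.inr ⟨by omega, hfw⟩⟩
      · rcases hst with rfl | ⟨hl0, hlast⟩
        · exact ⟨v (l + 1), ReflTransGen.head hbw hti, ReflTransGen.refl, Or.inl rfl⟩
        · exact absurd ⟨hlast, hbw⟩ (hc l hl0 (by omega))
  obtain ⟨t, hti, htv, -⟩ := key m le_rfl
  rw [hm] at htv
  exact ⟨t, hti, htv⟩

end walk

namespace ADag

variable {n : ℕ} {G : ADag n}

/-- If the empty set does not d-separate `i` and `j`, they have a common ancestor. -/
theorem of_not_dsep_empty {i j : Fin n} (h : ¬ G.DSeparates ∅ i j) :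
    ∃ t, ReflTransGen G.edge t i ∧ ReflTransGen G.edge t j := by
  unfold DSeparates at h
  push Not at h
  obtain ⟨p, -, -, h2⟩ := h
  refine active_empty p.length p.getVert p.getVert_zero p.getVert_length
    (fun l hl => p.adj_getVert_succ hl) fun l hl0 hl hcol => ?_
  obtain ⟨d, -, hd⟩ := h2 l hl0 hl hcol
  exact absurd hd (Finset.notMem_empty d)

/-- If `k` does not d-separate `i` and `j`, then `i` and `j` have a common ancestor avoiding `k`, or
`k` has a common ancestor with `i` and one with `j` (in the graph without the edges leaving `k`). -/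
theorem of_not_dsep {i j k : Fin n} (hik : i ≠ k) (hjk : j ≠ k) (h : ¬ G.DSeparates {k} i j) :
    (∃ t, ReflTransGen (Away G.edge k) t i ∧ ReflTransGen (Away G.edge k) t j) ∨
    ((∃ t, ReflTransGen (Out G.edge k) t i ∧ ReflTransGen (Out G.edge k) t k) ∧
      ∃ t, ReflTransGen (Out G.edge k) t j ∧ ReflTransGen (Out G.edge k) t k) := by
  unfold DSeparates at h
  push Not at h
  obtain ⟨p, -, h1, h2⟩ := h
  have h2' : ∀ l, 0 < l → l < p.length → G.IsCollider p l →
      ReflTransGen G.edge (p.getVert l) k := by
    intro l hl0 hl hcol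
    obtain ⟨d, hd, hdk⟩ := h2 l hl0 hl hcol
    rw [Finset.mem_singleton] at hdk
    rwa [hdk] at hd
  have h1' : ∀ l, 0 < l → l < p.length → ¬ G.IsCollider p l → p.getVert l ≠ k := by
    intro l hl0 hl hcol hk
    exact h1 l hl0 hl hcol (Finset.mem_singleton.2 hk)
  rcases active G.acyclic hik hjk p.length p.getVert p.getVert_zero p.getVert_length
    (fun l hl => p.adj_getVert_succ hl) h1' h2' with h3 | h3
  · exact Or.inl h3
  -- the reversed path
  set v : ℕ → Fin n := fun l => p.getVert (p.length - l) with hv
  have hcol : ∀ l, 0 < l → l < p.length → (G.edge (v (l - 1)) (v l) ∧ G.edge (v (l + 1)) (v l) ↔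
      G.IsCollider p (p.length - l)) := by
    intro l hl0 hl
    unfold IsCollider
    rw [hv]
    beta_reduce
    rw [show p.length - (l - 1) = p.length - l + 1 by omega,
      show p.length - (l + 1) = p.length - l - 1 by omega]
    exact and_comm
  rcases active G.acyclic hjk hik p.length v (by rw [hv]; exact p.getVert_length)
    (by rw [hv]; beta_reduce; rw [Nat.sub_self]; exact p.getVert_zero)
    (fun l hl => by
      have := p.adj_getVert_succ (i := p.length - (l + 1)) (by omega)
      rw [show p.length - (l + 1) + 1 = p.length - l by omega] at this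
      exact this.symm)
    (fun l hl0 hl hc => h1' _ (by omega) (by omega) (fun h => hc ((hcol l hl0 hl).2 h)))
    (fun l hl0 hl hc => h2' _ (by omega) (by omega) ((hcol l hl0 hl).1 hc)) with h4 | h4
  · obtain ⟨t, ht1, ht2⟩ := h4
    exact Or.inl ⟨t, ht2, ht1⟩
  · exact Or.inr ⟨h3, h4⟩

end ADag

end Q49.TG
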