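import Mathlib

/-!
# Bayesian networks and their prime ideals `P_G`
-/

set_option autoImplicit false

namespace Q49.TG

open MvPolynomial

/-- A Bayesian network on the vertices `0, …, n-1`: a directed graph whose edges `i → j` satisfy
`i < j`, together with the number `κ i ≥ 2` of states of each vertex `i`. -/
structure Network (n : ℕ) where
  /-- `edge i j` says that `i → j` is an edge -/
  edge : Fin n → Fin n → Prop
  lt_of_edge : ∀ i j, edge i j → i < j
  /-- the number of states -/
  κ : Fin n → ℕ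
  two_le : ∀ i, 2 ≤ κ i

namespace Network

variable {n : ℕ} (G : Network n)

/-- the joint states `u = (u_1, …, u_n)` -/
abbrev Outcome : Type := (i : Fin n) → Fin (G.κ i)

/-- the configurations `a` of the parents of `j` -/
abbrev PaConfig (j : Fin n) : Type := (i : {i : Fin n // G.edge i j}) → Fin (G.κ i)

/-- the indices `(j, k, a)` of the parameters `θ_{j,k,a}` -/
abbrev Param : Type := (j : Fin n) × (Fin (G.κ j) × G.PaConfig j)

/-- The polynomial ring `ℝ[Θ, z]`; the variable `some (j, k, a)` is `θ_{j,k,a}` and the variable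
`none` is `z`. -/
abbrev ParamRing : Type := MvPolynomial (Option G.Param) ℝ

/-- the parameter `θ_{j,k,a}` -/
noncomputable def θ (j : Fin n) (k : Fin (G.κ j)) (a : G.PaConfig j) : G.ParamRing :=
  X (some ⟨j, k, a⟩)

/-- the variable `z` -/
noncomputable def z : G.ParamRing := X none

/-- The ideal `J` generated by all `∑_k θ_{j,k,a} - z`. -/
noncomputable def J : Ideal G.ParamRing :=
  Ideal.span {p | ∃ (j : Fin n) (a : G.PaConfig j), p = ∑ k : Fin (G.κ j), G.θ j k a - G.z}

/-- the homomorphism `x_u ↦ ∏_j θ_{j, u_j, u_{Pa(j)}}` from `ℝ[x]` to `ℝ[Θ, z]/J` -/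
noncomputable def φ : MvPolynomial G.Outcome ℝ →ₐ[ℝ] G.ParamRing ⧸ G.J :=
  aeval fun u => Ideal.Quotient.mk G.J (∏ j : Fin n, G.θ j (u j) fun i => u i)

/-- the ideal `P_G` -/
noncomputable def P : Ideal (MvPolynomial G.Outcome ℝ) := RingHom.ker G.φ

end Network

/-- `f` is a binomial: it has exactly two terms -/
def IsBinomial {σ : Type} (f : MvPolynomial σ ℝ) : Prop :=
  ∃ (u v : σ →₀ ℕ) (a b : ℝ), u ≠ v ∧ a ≠ 0 ∧ b ≠ 0 ∧ f = monomial u a + monomial v b

/-- `I` is toric: a prime ideal generated by binomials -/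
def IsToric {σ : Type} (I : Ideal (MvPolynomial σ ℝ)) : Prop :=
  I.IsPrime ∧ ∃ S : Set (MvPolynomial σ ℝ), (∀ f ∈ S, IsBinomial f) ∧ I = Ideal.span S

/-- the linear substitution `x_u ↦ ∑_v A_{u,v} x_v` -/
noncomputable def linSubst {σ : Type} [Fintype σ] (A : Matrix σ σ ℝ) :
    MvPolynomial σ ℝ →ₐ[ℝ] MvPolynomial σ ℝ :=
  aeval fun u => ∑ v : σ, C (A u v) * X v

namespace Network

variable {n : ℕ} (G : Network n)

/-- `P_G` becomes toric after an invertible linear change of variables -/
def Toric : Prop :=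
  ∃ A : Matrix G.Outcome G.Outcome ℝ, A.det ≠ 0 ∧ IsToric (G.P.map (linSubst A))

/-- `i` and `j` are adjacent -/
def Adj (i j : Fin n) : Prop := G.edge i j ∨ G.edge j i

/-- `i` has no children -/
def IsSink (i : Fin n) : Prop := ∀ j, ¬ G.edge i j

/-- The induced subgraph on the vertices that are not sinks is perfect: any two distinct parents
of a vertex of the subgraph, in the subgraph, are adjacent. -/
def NonSinkPerfect : Prop :=
  ∀ i, ¬ G.IsSink i → ∀ j, ¬ G.IsSink j → ∀ k, ¬ G.IsSink k → G.edge j i → G.edge k i → j ≠ k →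
    G.Adj j k

end Network

end Q49.TG
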