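import Pool.Agent.Q49.TG.Bin
import Pool.Agent.Q49.TG.NetDef

set_option autoImplicit false

namespace Q49.TG

open MvPolynomial

/-! ### linear substitutions -/

section lin

variable {σ : Type} [Fintype σ]

theorem linSubst_comp (A B : Matrix σ σ ℝ) (F : MvPolynomial σ ℝ) :
    linSubst A (linSubst B F) = linSubst (B * A) F := by
  have h : (linSubst A).comp (linSubst B) = linSubst (B * A) := by
    apply algHom_ext
    intro u
    rw [AlgHom.comp_apply]
    unfold linSubst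
    rw [aeval_X, aeval_X, map_sum]
    simp only [map_mul, aeval_X, algHom_C, Matrix.mul_apply, map_sum, Finset.sum_mul]
    simp only [Finset.mul_sum]
    rw [Finset.sum_comm]
    refine Finset.sum_congr rfl fun w _ => Finset.sum_congr rfl fun v _ => ?_
    rw [show algebraMap ℝ (MvPolynomial σ ℝ) (B u v) = C (B u v) from rfl]
    ring
  exact DFunLike.congr_fun h F

variable [DecidableEq σ]

theorem linSubst_one (F : MvPolynomial σ ℝ) : linSubst (1 : Matrix σ σ ℝ) F = F := by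
  have h : linSubst (1 : Matrix σ σ ℝ) = AlgHom.id ℝ _ := by
    apply algHom_ext
    intro u
    unfold linSubst
    rw [aeval_X, Finset.sum_eq_single u]
    · rw [Matrix.one_apply_eq, map_one, one_mul]; rfl
    · intro v _ hv
      rw [Matrix.one_apply_ne (Ne.symm hv), map_zero, zero_mul]
    · intro h; exact absurd (Finset.mem_univ u) h
  rw [h]
  rfl

/-- The image of an ideal under a linear change of variables. -/
theorem map_linSubst {A B : Matrix σ σ ℝ} (h1 : A * B = 1) (h2 : B * A = 1)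
    (I : Ideal (MvPolynomial σ ℝ)) : I.map (linSubst A) = I.comap (linSubst B) := by
  apply le_antisymm
  · rw [Ideal.map_le_iff_le_comap]
    intro F hF
    rw [Ideal.mem_comap, Ideal.mem_comap, linSubst_comp, h1, linSubst_one]
    exact hF
  · intro F hF
    rw [Ideal.mem_comap] at hF
    have h3 := Ideal.mem_map_of_mem (linSubst A) hF
    rwa [linSubst_comp, h2, linSubst_one] at h3

end lin

/-! ### the network -/

/-- All edges `i → j` with `i < j` on four vertices, except the edge from the first vertex to the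
second one. -/
abbrev G4 (κ : Fin 4 → ℕ) (hκ : ∀ i, 2 ≤ κ i) : Network 4 where
  edge i j := i < j ∧ ¬ (i = 0 ∧ j = 1)
  lt_of_edge _ _ h := h.1
  κ := κ
  two_le := hκ

variable (κ : Fin 4 → ℕ) (hκ : ∀ i, 2 ≤ κ i)

/-- the joint states -/
abbrev Out : Type := (i : Fin 4) → Fin (κ i)

variable {κ} in
/-- the state `(a, b, c, d)` -/
def mk4 (a : Fin (κ 0)) (b : Fin (κ 1)) (c : Fin (κ 2)) (d : Fin (κ 3)) : Out κ :=
  fun i => match i with
  | 0 => a
  | 1 => b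
  | 2 => c
  | 3 => d

/-- the states as quadruples -/
def quad : Out κ ≃ Fin (κ 0) × Fin (κ 1) × Fin (κ 2) × Fin (κ 3) where
  toFun u := (u 0, u 1, u 2, u 3)
  invFun p := mk4 p.1 p.2.1 p.2.2.1 p.2.2.2
  left_inv u := by
    funext i
    match i with
    | 0 => rfl
    | 1 => rfl
    | 2 => rfl
    | 3 => rfl
  right_inv p := rfl

theorem sum4 {M : Type*} [AddCommMonoid M] (f : Out κ → M) :
    ∑ u, f u = ∑ a, ∑ b, ∑ c, ∑ d, f (mk4 a b c d) := by
  rw [← (quad κ).symm.sum_comp]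
  rw [Fintype.sum_prod_type]
  refine Finset.sum_congr rfl fun a _ => ?_
  rw [Fintype.sum_prod_type]
  refine Finset.sum_congr rfl fun b _ => ?_
  rw [Fintype.sum_prod_type]
  rfl

variable {κ}

/-- the last two states are the first ones -/
def Base (u : Out κ) : Prop := (u 2 : ℕ) = 0 ∧ (u 3 : ℕ) = 0

instance (u : Out κ) : Decidable (Base u) := inferInstanceAs (Decidable (_ ∧ _))

/-- the same states of the first two vertices -/
def Sim (u v : Out κ) : Prop := v 0 = u 0 ∧ v 1 = u 1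

instance (u v : Out κ) : Decidable (Sim u v) := inferInstanceAs (Decidable (_ ∧ _))

theorem base_sim {u v : Out κ} (hu : Base u) (hv : Base v) (h : Sim u v) : u = v := by
  funext i
  match i with
  | 0 => exact h.1.symm
  | 1 => exact h.2.symm
  | 2 => exact Fin.ext (hu.1.trans hv.1.symm)
  | 3 => exact Fin.ext (hu.2.trans hv.2.symm)

/-- the nilpotent part of the linear change of variables -/
def N : Matrix (Out κ) (Out κ) ℝ := fun u v => if Base u ∧ Sim u v ∧ u ≠ v then 1 else 0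

theorem N_mul_N : (N : Matrix (Out κ) (Out κ) ℝ) * N = 0 := by
  ext u w
  rw [Matrix.mul_apply, Matrix.zero_apply]
  refine Finset.sum_eq_zero fun v _ => ?_
  unfold N
  by_cases h1 : Base u ∧ Sim u v ∧ u ≠ v
  · rw [if_pos h1, one_mul, if_neg]
    rintro ⟨h2, _⟩
    exact h1.2.2 (base_sim h1.1 h2 h1.2.1)
  · rw [if_neg h1, zero_mul]

theorem plus_minus : (1 + N : Matrix (Out κ) (Out κ) ℝ) * (1 - N) = 1 := by
  rw [mul_sub, mul_one, add_mul, N_mul_N, one_mul, add_zero]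
  abel

theorem minus_plus : (1 - N : Matrix (Out κ) (Out κ) ℝ) * (1 + N) = 1 := by
  rw [mul_add, mul_one, sub_mul, N_mul_N, one_mul, sub_zero]
  abel

/-- `x_u ↦ x_u + ∑_v N u v x_v` -/
theorem sum_plus {M : Type*} [AddCommGroup M] [Module ℝ M] (f : Out κ → M) (u : Out κ) :
    ∑ v, (1 + N : Matrix (Out κ) (Out κ) ℝ) u v • f v =
      if Base u then ∑ c, ∑ d, f (mk4 (u 0) (u 1) c d) else f u := by
  by_cases hu : Base u
  · rw [if_pos hu]
    have h1 : ∀ v, (1 + N : Matrix (Out κ) (Out κ) ℝ) u v = if Sim u v then 1 else 0 := by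
      intro v
      rw [Matrix.add_apply, Matrix.one_apply]
      unfold N
      by_cases huv : u = v
      · subst huv
        simp [Sim]
      · by_cases h : Sim u v <;> simp [huv, h, hu]
    simp only [h1]
    rw [sum4, Finset.sum_eq_single (u 0)]
    · rw [Finset.sum_eq_single (u 1)]
      · refine Finset.sum_congr rfl fun c _ => Finset.sum_congr rfl fun d _ => ?_
        rw [if_pos ⟨rfl, rfl⟩, one_smul]
      · intro b _ hb
        refine Finset.sum_eq_zero fun c _ => Finset.sum_eq_zero fun d _ => ?_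
        rw [if_neg (fun h => hb h.2), zero_smul]
      · intro h; exact absurd (Finset.mem_univ _) h
    · intro a _ ha
      refine Finset.sum_eq_zero fun b _ => Finset.sum_eq_zero fun c _ =>
        Finset.sum_eq_zero fun d _ => ?_
      rw [if_neg (fun h => ha h.1), zero_smul]
    · intro h; exact absurd (Finset.mem_univ _) h
  · rw [if_neg hu, Finset.sum_eq_single u]
    · rw [Matrix.add_apply, Matrix.one_apply_eq]
      unfold N
      rw [if_neg (fun h => hu h.1), add_zero, one_smul]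
    · intro v _ hv
      rw [Matrix.add_apply, Matrix.one_apply_ne (Ne.symm hv)]
      unfold N
      rw [if_neg (fun h => hu h.1), add_zero, zero_smul]
    · intro h; exact absurd (Finset.mem_univ _) h

theorem e02 : (0 : Fin 4) < 2 ∧ ¬ ((0 : Fin 4) = 0 ∧ (2 : Fin 4) = 1) := by decide
theorem e12 : (1 : Fin 4) < 2 ∧ ¬ ((1 : Fin 4) = 0 ∧ (2 : Fin 4) = 1) := by decide
theorem e03 : (0 : Fin 4) < 3 ∧ ¬ ((0 : Fin 4) = 0 ∧ (3 : Fin 4) = 1) := by decide
theorem e13 : (1 : Fin 4) < 3 ∧ ¬ ((1 : Fin 4) = 0 ∧ (3 : Fin 4) = 1) := by decide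
theorem e23 : (2 : Fin 4) < 3 ∧ ¬ ((2 : Fin 4) = 0 ∧ (3 : Fin 4) = 1) := by decide

/-- the monomial map: `x_u ↦ s_{u_0} t_{u_1}` if `u` is a base point, `x_u ↦ w_u` otherwise -/
noncomputable def mon (u : Out κ) : (Fin (κ 0) ⊕ Fin (κ 1) ⊕ Out κ) →₀ ℕ :=
  if Base u then Finsupp.single (Sum.inl (u 0)) 1 + Finsupp.single (Sum.inr (Sum.inl (u 1))) 1
  else Finsupp.single (Sum.inr (Sum.inr u)) 1

theorem mon_eq (u : Out κ) : (monomial (mon u) 1 : MvPolynomial (Fin (κ 0) ⊕ Fin (κ 1) ⊕ Out κ) ℝ) =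
    if Base u then X (Sum.inl (u 0)) * X (Sum.inr (Sum.inl (u 1))) else X (Sum.inr (Sum.inr u)) := by
  unfold mon
  split_ifs
  · rw [X, X, monomial_mul, one_mul]
  · rfl

variable (κ) in
/-- the monomial map -/
noncomputable def ψ : MvPolynomial (Out κ) ℝ →ₐ[ℝ] MvPolynomial (Fin (κ 0) ⊕ Fin (κ 1) ⊕ Out κ) ℝ :=
  aeval (R := ℝ) fun u => (monomial (mon u) 1 : MvPolynomial (Fin (κ 0) ⊕ Fin (κ 1) ⊕ Out κ) ℝ)

/-! ### the kernel -/

/-- the parent configuration -/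
def pc (u : Out κ) (j : Fin 4) : (G4 κ hκ).PaConfig j := fun i => u i

theorem phi_X (u : Out κ) : (G4 κ hκ).φ (X u) = Ideal.Quotient.mk (G4 κ hκ).J
    ((G4 κ hκ).θ 0 (u 0) (pc hκ u 0)) * Ideal.Quotient.mk (G4 κ hκ).J
    ((G4 κ hκ).θ 1 (u 1) (pc hκ u 1)) * Ideal.Quotient.mk (G4 κ hκ).J
      ((G4 κ hκ).θ 2 (u 2) (pc hκ u 2)) * Ideal.Quotient.mk (G4 κ hκ).J
      ((G4 κ hκ).θ 3 (u 3) (pc hκ u 3)) := by
  unfold Network.φ
  rw [aeval_X, Fin.prod_univ_four, map_mul, map_mul, map_mul]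
  rfl

/-- the relation in the quotient ring -/
theorem sum_rel (j : Fin 4) (p : (G4 κ hκ).PaConfig j) :
    ∑ k, Ideal.Quotient.mk (G4 κ hκ).J ((G4 κ hκ).θ j k p) =
      Ideal.Quotient.mk (G4 κ hκ).J (G4 κ hκ).z := by
  rw [← map_sum, ← sub_eq_zero, ← map_sub, Ideal.Quotient.eq_zero_iff_mem]
  exact Ideal.subset_span ⟨j, p, rfl⟩

theorem pc0 (u v : Out κ) : pc hκ u 0 = pc hκ v 0 := by
  funext ⟨i, hi⟩
  exact absurd hi.1 (by simp)

theorem pc1 (u v : Out κ) : pc hκ u 1 = pc hκ v 1 := by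
  funext ⟨i, hi⟩
  exfalso
  have h1 : i < 1 := hi.1
  have h2 : ¬ (i = 0 ∧ (1 : Fin 4) = 1) := hi.2
  have h3 : i = 0 := by omega
  exact h2 ⟨h3, rfl⟩

theorem pc2 (a : Fin (κ 0)) (b : Fin (κ 1)) (c c' : Fin (κ 2)) (d d' : Fin (κ 3)) :
    pc hκ (mk4 a b c d) 2 = pc hκ (mk4 a b c' d') 2 := by
  funext ⟨i, hi⟩
  match i with
  | 0 => rfl
  | 1 => rfl
  | 2 => exact absurd hi.1 (by decide)
  | 3 => exact absurd hi.1 (by decide)

theorem pc3 (a : Fin (κ 0)) (b : Fin (κ 1)) (c : Fin (κ 2)) (d d' : Fin (κ 3)) :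
    pc hκ (mk4 a b c d) 3 = pc hκ (mk4 a b c d') 3 := by
  funext ⟨i, hi⟩
  match i with
  | 0 => rfl
  | 1 => rfl
  | 2 => rfl
  | 3 => exact absurd hi.1 (by decide)

theorem phi_sum (u0 : Out κ) (a : Fin (κ 0)) (b : Fin (κ 1)) :
    ∑ c, ∑ d, (G4 κ hκ).φ (X (mk4 a b c d)) = Ideal.Quotient.mk (G4 κ hκ).J
      ((G4 κ hκ).θ 0 a (pc hκ u0 0)) * Ideal.Quotient.mk (G4 κ hκ).J
      ((G4 κ hκ).θ 1 b (pc hκ u0 1)) * Ideal.Quotient.mk (G4 κ hκ).J (G4 κ hκ).z ^ 2 := by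
  have c0 : Fin (κ 2) := ⟨0, by have := hκ 2; omega⟩
  have d0 : Fin (κ 3) := ⟨0, by have := hκ 3; omega⟩
  have h1 : ∀ c d, (G4 κ hκ).φ (X (mk4 a b c d)) = Ideal.Quotient.mk (G4 κ hκ).J
      ((G4 κ hκ).θ 0 a (pc hκ u0 0)) * Ideal.Quotient.mk (G4 κ hκ).J
      ((G4 κ hκ).θ 1 b (pc hκ u0 1)) * Ideal.Quotient.mk (G4 κ hκ).J
      ((G4 κ hκ).θ 2 c (pc hκ (mk4 a b c0 d0) 2)) * Ideal.Quotient.mk (G4 κ hκ).J
      ((G4 κ hκ).θ 3 d (pc hκ (mk4 a b c d0) 3)) := by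
    intro c d
    rw [phi_X, pc0 hκ _ u0, pc1 hκ _ u0, pc2 hκ a b c c0 d d0, pc3 hκ a b c d d0]
    rfl
  simp only [h1]
  simp only [← Finset.mul_sum]
  have h2 : ∀ c, ∑ d, Ideal.Quotient.mk (G4 κ hκ).J
      ((G4 κ hκ).θ 3 d (pc hκ (mk4 a b c d0) 3)) = Ideal.Quotient.mk (G4 κ hκ).J (G4 κ hκ).z :=
    fun c => sum_rel hκ 3 _
  simp only [h2]
  rw [← Finset.sum_mul, ← Finset.mul_sum, sum_rel hκ 2 _]
  ring

/-- the composite of `φ` and the linear change of variables on the variables -/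
theorem phi_lin (u : Out κ) : (G4 κ hκ).φ (linSubst (1 + N) (X u)) =
    if Base u then Ideal.Quotient.mk (G4 κ hκ).J
      ((G4 κ hκ).θ 0 (u 0) (pc hκ u 0)) * Ideal.Quotient.mk (G4 κ hκ).J
      ((G4 κ hκ).θ 1 (u 1) (pc hκ u 1)) * Ideal.Quotient.mk (G4 κ hκ).J (G4 κ hκ).z ^ 2
    else (G4 κ hκ).φ (X u) := by
  unfold linSubst
  rw [aeval_X, map_sum]
  have h1 : ∀ v : Out κ, (G4 κ hκ).φ (C ((1 + N : Matrix (Out κ) (Out κ) ℝ) u v) * X v) =
      (1 + N : Matrix (Out κ) (Out κ) ℝ) u v • (G4 κ hκ).φ (X v) := by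
    intro v
    rw [C_mul', map_smul]
  simp only [h1]
  rw [sum_plus (fun v => (G4 κ hκ).φ (X v)) u, phi_sum hκ u]

/-- `ker ψ ⊆ ker (φ ∘ linSubst (1 + N))` -/
theorem ker_le {F : MvPolynomial (Out κ) ℝ} (hF : ψ κ F = 0) :
    (G4 κ hκ).φ (linSubst (1 + N) F) = 0 := by
  have u0 : Out κ := fun i => ⟨0, by have := hκ i; omega⟩
  set χ : MvPolynomial (Fin (κ 0) ⊕ Fin (κ 1) ⊕ Out κ) ℝ →ₐ[ℝ]
      (G4 κ hκ).ParamRing ⧸ (G4 κ hκ).J :=
    aeval (R := ℝ) fun i => match i with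
      | Sum.inl a => Ideal.Quotient.mk (G4 κ hκ).J ((G4 κ hκ).θ 0 a (pc hκ u0 0))
      | Sum.inr (Sum.inl b) => Ideal.Quotient.mk (G4 κ hκ).J ((G4 κ hκ).θ 1 b (pc hκ u0 1)) *
          Ideal.Quotient.mk (G4 κ hκ).J (G4 κ hκ).z ^ 2
      | Sum.inr (Sum.inr u) => (G4 κ hκ).φ (X u) with hχ
  have h : χ.comp (ψ κ) = ((G4 κ hκ).φ).comp (linSubst (1 + N)) := by
    apply algHom_ext
    intro u
    rw [AlgHom.comp_apply, AlgHom.comp_apply, phi_lin]
    unfold ψ
    rw [aeval_X, mon_eq]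
    split_ifs with hu
    · rw [map_mul, hχ, aeval_X, aeval_X, pc0 hκ u u0, pc1 hκ u u0, mul_assoc]
    · rw [hχ, aeval_X]
  have h2 := DFunLike.congr_fun h F
  rw [AlgHom.comp_apply, AlgHom.comp_apply, hF, map_zero] at h2
  exact h2.symm

end Q49.TG
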