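import Pool.Agent.Q49.TG.Net

set_option autoImplicit false

namespace Q49.TG

open MvPolynomial

variable {κ : Fin 4 → ℕ} (hκ : ∀ i, 2 ≤ κ i)

section pt

variable (s : Fin (κ 0) → ℝ) (t : Fin (κ 1) → ℝ) (x : Out κ → ℝ)

/-- the sum over the last state -/
noncomputable def marg (a : Fin (κ 0)) (b : Fin (κ 1)) (c : Fin (κ 2)) : ℝ := ∑ d, x (mk4 a b c d)

/-- the values of the parameters -/
noncomputable def par (z : ℝ) : Option (G4 κ hκ).Param → ℝ
  | none => z
  | some ⟨0, k, _⟩ => z * s k / ∑ i, s i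
  | some ⟨1, k, _⟩ => z * t k / ∑ i, t i
  | some ⟨2, k, p⟩ => marg x (p ⟨0, e02⟩) (p ⟨1, e12⟩) k /
      ((z * s (p ⟨0, e02⟩) / ∑ i, s i) * (z * t (p ⟨1, e12⟩) / ∑ i, t i) * z)
  | some ⟨3, k, p⟩ => x (mk4 (p ⟨0, e03⟩) (p ⟨1, e13⟩) (p ⟨2, e23⟩) k) * z /
      marg x (p ⟨0, e03⟩) (p ⟨1, e13⟩) (p ⟨2, e23⟩)

include hκ in
theorem marg_pos (hx : ∀ u, 0 < x u) (a : Fin (κ 0)) (b : Fin (κ 1)) (c : Fin (κ 2)) :
    0 < marg x a b c := by
  have : Nonempty (Fin (κ 3)) := ⟨⟨0, by have := hκ 3; omega⟩⟩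
  exact Finset.sum_pos (fun d _ => hx _) Finset.univ_nonempty

theorem sum_pos' {k : ℕ} (hk : 2 ≤ k) {f : Fin k → ℝ} (hf : ∀ i, 0 < f i) : 0 < ∑ i, f i := by
  have : Nonempty (Fin k) := ⟨⟨0, by omega⟩⟩
  exact Finset.sum_pos (fun d _ => hf _) Finset.univ_nonempty

/-- the values of the parameters satisfy the relations -/
theorem par_rel (hs : ∀ i, 0 < s i) (ht : ∀ i, 0 < t i) (hx : ∀ u, 0 < x u)
    (hst : ∀ a b, ∑ c, ∑ d, x (mk4 a b c d) = s a * t b) {z : ℝ} (hz : 0 < z)
    (hz4 : z ^ 4 = (∑ i, s i) * ∑ i, t i) (f : (G4 κ hκ).ParamRing) (hf : f ∈ (G4 κ hκ).J) :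
    eval (par hκ s t x z) f = 0 := by
  have hS := sum_pos' (hκ 0) hs
  have hT := sum_pos' (hκ 1) ht
  have h1 : (G4 κ hκ).J ≤ RingHom.ker (eval (par hκ s t x z)) := by
    unfold Network.J
    rw [Ideal.span_le]
    rintro f ⟨j, p, rfl⟩
    rw [SetLike.mem_coe, RingHom.mem_ker, map_sub, map_sum]
    unfold Network.θ Network.z
    simp only [eval_X]
    rw [sub_eq_zero]
    match j, p with
    | 0, p =>
      change ∑ k, z * s k / ∑ i, s i = z
      rw [← Finset.sum_div, ← Finset.mul_sum]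
      field_simp
    | 1, p =>
      change ∑ k, z * t k / ∑ i, t i = z
      rw [← Finset.sum_div, ← Finset.mul_sum]
      field_simp
    | 2, p =>
      change ∑ k, marg x (p ⟨0, e02⟩) (p ⟨1, e12⟩) k /
        ((z * s (p ⟨0, e02⟩) / ∑ i, s i) * (z * t (p ⟨1, e12⟩) / ∑ i, t i) * z) = z
      rw [← Finset.sum_div]
      unfold marg
      rw [hst]
      have h2 := hs (p ⟨0, e02⟩)
      have h3 := ht (p ⟨1, e12⟩)
      rw [div_eq_iff (by positivity)]
      field_simp
      rw [← hz4]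
    | 3, p =>
      change ∑ k, x (mk4 (p ⟨0, e03⟩) (p ⟨1, e13⟩) (p ⟨2, e23⟩) k) * z /
        marg x (p ⟨0, e03⟩) (p ⟨1, e13⟩) (p ⟨2, e23⟩) = z
      rw [← Finset.sum_div, ← Finset.sum_mul]
      have h2 := marg_pos hκ x hx (p ⟨0, e03⟩) (p ⟨1, e13⟩) (p ⟨2, e23⟩)
      rw [div_eq_iff h2.ne']
      unfold marg
      ring
  exact h1 hf

/-- the values of the parameters give the point `x` -/
theorem par_val (hs : ∀ i, 0 < s i) (ht : ∀ i, 0 < t i) (hx : ∀ u, 0 < x u)
    {z : ℝ} (hz : 0 < z) (u : Out κ) :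
    eval (par hκ s t x z) (∏ j, (G4 κ hκ).θ j (u j) fun i => u i) = x u := by
  have hS := sum_pos' (hκ 0) hs
  have hT := sum_pos' (hκ 1) ht
  rw [Fin.prod_univ_four, map_mul, map_mul, map_mul]
  unfold Network.θ
  rw [eval_X, eval_X, eval_X, eval_X]
  change (z * s (u 0) / ∑ i, s i) * (z * t (u 1) / ∑ i, t i) *
    (marg x (u 0) (u 1) (u 2) /
      ((z * s (u 0) / ∑ i, s i) * (z * t (u 1) / ∑ i, t i) * z)) *
    (x (mk4 (u 0) (u 1) (u 2) (u 3)) * z / marg x (u 0) (u 1) (u 2)) = x u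
  have h2 := marg_pos hκ x hx (u 0) (u 1) (u 2)
  have h3 := hs (u 0)
  have h4 := ht (u 1)
  have h5 : mk4 (u 0) (u 1) (u 2) (u 3) = u := (quad κ).left_inv u
  rw [h5]
  field_simp

/-- the point of the quotient ring -/
theorem exists_point (hs : ∀ i, 0 < s i) (ht : ∀ i, 0 < t i) (hx : ∀ u, 0 < x u)
    (hst : ∀ a b, ∑ c, ∑ d, x (mk4 a b c d) = s a * t b) :
    ∃ ev : (G4 κ hκ).ParamRing ⧸ (G4 κ hκ).J →+* ℝ,
      ∀ F : MvPolynomial (Out κ) ℝ, ev ((G4 κ hκ).φ F) = eval x F := by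
  have hS := sum_pos' (hκ 0) hs
  have hT := sum_pos' (hκ 1) ht
  have hr : 0 < (∑ i, s i) * ∑ i, t i := by positivity
  set z : ℝ := Real.sqrt (Real.sqrt ((∑ i, s i) * ∑ i, t i)) with hz
  have hz0 : 0 < z := Real.sqrt_pos.2 (Real.sqrt_pos.2 hr)
  have hz4 : z ^ 4 = (∑ i, s i) * ∑ i, t i := by
    have h1 : z ^ 2 = Real.sqrt ((∑ i, s i) * ∑ i, t i) := Real.sq_sqrt (Real.sqrt_nonneg _)
    calc z ^ 4 = (z ^ 2) ^ 2 := by ring
      _ = _ := by rw [h1, Real.sq_sqrt hr.le]
  refine ⟨Ideal.Quotient.lift (G4 κ hκ).J (eval (par hκ s t x z))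
    (fun f hf => par_rel hκ s t x hs ht hx hst hz0 hz4 f hf), fun F => ?_⟩
  have h : ((Ideal.Quotient.lift (G4 κ hκ).J (eval (par hκ s t x z))
    (fun f hf => par_rel hκ s t x hs ht hx hst hz0 hz4 f hf)).comp
      ((G4 κ hκ).φ : MvPolynomial (Out κ) ℝ →+* _)) = eval x := by
    apply ringHom_ext
    · intro r
      rw [RingHom.comp_apply, eval_C]
      change Ideal.Quotient.lift (G4 κ hκ).J (eval (par hκ s t x z)) _ ((G4 κ hκ).φ (C r)) = r
      rw [show (G4 κ hκ).φ (C r) = Ideal.Quotient.mk (G4 κ hκ).J (C r) from algHom_C _ r,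
        Ideal.Quotient.lift_mk, eval_C]
    · intro u
      rw [RingHom.comp_apply, eval_X]
      change Ideal.Quotient.lift (G4 κ hκ).J (eval (par hκ s t x z)) _ ((G4 κ hκ).φ (X u)) = x u
      unfold Network.φ
      rw [aeval_X, Ideal.Quotient.lift_mk]
      exact par_val hκ s t x hs ht hx hz0 u
  exact DFunLike.congr_fun h F

end pt

/-- `ker (φ ∘ linSubst (1 + N)) ⊆ ker ψ` -/
theorem le_ker {F : MvPolynomial (Out κ) ℝ} (hF : (G4 κ hκ).φ (linSubst (1 + N) F) = 0) :
    ψ κ F = 0 := by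
  classical
  set M : ℝ := (Fintype.card (Out κ) : ℝ) with hM
  have u0 : Out κ := fun i => ⟨0, by have := hκ i; omega⟩
  have hM0 : 0 < M := by
    rw [hM]
    exact_mod_cast Fintype.card_pos_iff.2 ⟨u0⟩
  refine funext_set (R := ℝ) (fun i => match i with
    | Sum.inl _ => Set.Ioo 1 2
    | Sum.inr (Sum.inl _) => Set.Ioo 1 2
    | Sum.inr (Sum.inr _) => Set.Ioo 0 (1 / M)) ?_ ?_
  · rintro (a | b | u)
    · exact Set.Ioo_infinite (by norm_num)
    · exact Set.Ioo_infinite (by norm_num)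
    · exact Set.Ioo_infinite (by positivity)
  · intro p hp
    rw [map_zero]
    have hs : ∀ a, 1 < p (Sum.inl a) := fun a => (hp (Sum.inl a) trivial).1
    have ht : ∀ b, 1 < p (Sum.inr (Sum.inl b)) := fun b => (hp (Sum.inr (Sum.inl b)) trivial).1
    have hw : ∀ u, 0 < p (Sum.inr (Sum.inr u)) := fun u => (hp (Sum.inr (Sum.inr u)) trivial).1
    have hw' : ∀ u, p (Sum.inr (Sum.inr u)) < 1 / M :=
      fun u => (hp (Sum.inr (Sum.inr u)) trivial).2
    -- the values of the new variables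
    set y : Out κ → ℝ := fun u => eval p (ψ κ (X u)) with hy
    have hyv : ∀ u, y u = if Base u then p (Sum.inl (u 0)) * p (Sum.inr (Sum.inl (u 1)))
        else p (Sum.inr (Sum.inr u)) := by
      intro u
      change eval p (ψ κ (X u)) = _
      unfold ψ
      rw [aeval_X, mon_eq]
      split_ifs <;> simp
    -- the point
    set x : Out κ → ℝ := fun u => ∑ v, (1 - N : Matrix (Out κ) (Out κ) ℝ) u v • y v with hx
    have hyx : ∀ u, ∑ v, (1 + N : Matrix (Out κ) (Out κ) ℝ) u v • x v = y u := by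
      intro u
      have h1 : ∀ v, (1 + N : Matrix (Out κ) (Out κ) ℝ) u v • x v =
          ∑ w, ((1 + N : Matrix (Out κ) (Out κ) ℝ) u v * (1 - N : Matrix (Out κ) (Out κ) ℝ) v w) *
            y w := by
        intro v
        rw [hx, smul_eq_mul, Finset.mul_sum]
        refine Finset.sum_congr rfl fun w _ => ?_
        rw [smul_eq_mul, mul_assoc]
      simp only [h1]
      rw [Finset.sum_comm]
      simp only [← Finset.sum_mul, ← Matrix.mul_apply]
      rw [plus_minus, Finset.sum_eq_single u]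
      · rw [Matrix.one_apply_eq, one_mul]
      · intro w _ hw
        rw [Matrix.one_apply_ne (Ne.symm hw), zero_mul]
      · intro h; exact absurd (Finset.mem_univ _) h
    have hx0 : ∀ u, 0 < x u := by
      intro u
      by_cases hu : Base u
      · have h1 : x u = y u - ∑ v, N u v * y v := by
          rw [hx]
          have : ∀ v, (1 - N : Matrix (Out κ) (Out κ) ℝ) u v • y v =
              (1 : Matrix (Out κ) (Out κ) ℝ) u v * y v - N u v * y v := by
            intro v
            rw [Matrix.sub_apply, smul_eq_mul]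
            ring
          simp only [this]
          rw [Finset.sum_sub_distrib, Finset.sum_eq_single u]
          · rw [Matrix.one_apply_eq, one_mul]
          · intro w _ hw
            rw [Matrix.one_apply_ne (Ne.symm hw), zero_mul]
          · intro h; exact absurd (Finset.mem_univ _) h
        have h2 : ∑ v, N u v * y v < 1 := by
          have h3 : ∀ v ∈ Finset.univ, N u v * y v < 1 / M := by
            intro v _
            unfold N
            split_ifs with h
            · rw [one_mul, hyv, if_neg (fun hv => h.2.2 (base_sim h.1 hv h.2.1))]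
              exact hw' v
            · rw [zero_mul]
              positivity
          have h4 := Finset.sum_lt_sum_of_nonempty (s := Finset.univ) ⟨u0, Finset.mem_univ _⟩ h3
          rw [Finset.sum_const, Finset.card_univ, nsmul_eq_mul, ← hM, mul_one_div_cancel hM0.ne']
            at h4
          exact h4
        have h3 : 1 < y u := by
          rw [hyv, if_pos hu]
          nlinarith [hs (u 0), ht (u 1)]
        rw [h1]
        linarith
      · have h1 : x u = y u := by
          rw [hx]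
          have : ∀ v, (1 - N : Matrix (Out κ) (Out κ) ℝ) u v = (1 : Matrix (Out κ) (Out κ) ℝ) u v := by
            intro v
            rw [Matrix.sub_apply]
            unfold N
            rw [if_neg (fun h => hu h.1), sub_zero]
          simp only [this]
          rw [Finset.sum_eq_single u]
          · rw [Matrix.one_apply_eq, one_smul]
          · intro w _ hw
            rw [Matrix.one_apply_ne (Ne.symm hw), zero_smul]
          · intro h; exact absurd (Finset.mem_univ _) h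
        rw [h1, hyv, if_neg hu]
        exact hw u
    have hst : ∀ a b, ∑ c, ∑ d, x (mk4 a b c d) = p (Sum.inl a) * p (Sum.inr (Sum.inl b)) := by
      intro a b
      have h1 := hyx (mk4 a b ⟨0, by have := hκ 2; omega⟩ ⟨0, by have := hκ 3; omega⟩)
      rw [sum_plus x, hyv, if_pos ⟨rfl, rfl⟩, if_pos ⟨rfl, rfl⟩] at h1
      exact h1
    obtain ⟨ev, hev⟩ := exists_point hκ (fun a => p (Sum.inl a)) (fun b => p (Sum.inr (Sum.inl b))) x
      (fun a => by linarith [hs a]) (fun b => by linarith [ht b]) hx0 hst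
    have h1 : eval x (linSubst (1 + N) F) = eval p (ψ κ F) := by
      have h2 : ((eval x).comp ((linSubst (1 + N) : MvPolynomial (Out κ) ℝ →ₐ[ℝ] _) :
          MvPolynomial (Out κ) ℝ →+* MvPolynomial (Out κ) ℝ)) =
          (eval p).comp ((ψ κ : MvPolynomial (Out κ) ℝ →ₐ[ℝ] _) : MvPolynomial (Out κ) ℝ →+* _) := by
        apply ringHom_ext
        · intro r
          simp only [RingHom.comp_apply, RingHom.coe_coe, algHom_C]
          rw [show algebraMap ℝ (MvPolynomial (Out κ) ℝ) r = C r from rfl, eval_C,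
            show algebraMap ℝ (MvPolynomial (Fin (κ 0) ⊕ Fin (κ 1) ⊕ Out κ) ℝ) r = C r from rfl,
            eval_C]
        · intro u
          simp only [RingHom.comp_apply, RingHom.coe_coe]
          rw [show eval p (ψ κ (X u)) = y u from rfl, ← hyx u]
          unfold linSubst
          rw [aeval_X, map_sum]
          refine Finset.sum_congr rfl fun v _ => ?_
          rw [map_mul, eval_C, eval_X, smul_eq_mul]
      exact DFunLike.congr_fun h2 F
    rw [← h1, ← hev, hF, map_zero]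

/-- the kernel of the monomial map is toric -/
theorem toric_ker : IsToric (RingHom.ker (ψ κ)) := by
  refine ⟨RingHom.ker_isPrime _, {g | g ∈ RingHom.ker (ψ κ) ∧ IsBinomial g}, fun f hf => hf.2,
    le_antisymm ?_ (Ideal.span_le.2 fun f hf => hf.1)⟩
  intro F hF
  refine Ideal.span_mono ?_ (mem_span_of_ker (m := mon) (c := fun _ => (1 : ℝ)) F hF)
  rintro g ⟨hg, h⟩
  refine ⟨hg, ?_⟩
  rcases h with ⟨u, rfl⟩ | ⟨u, v, huv, a, ha, -, rfl⟩
  · exfalso
    have h1 : ∀ u : Out κ →₀ ℕ, aeval (R := ℝ) (fun i => (monomial (mon i) (1 : ℝ) :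
        MvPolynomial (Fin (κ 0) ⊕ Fin (κ 1) ⊕ Out κ) ℝ)) (monomial u (1 : ℝ)) ≠ 0 := by
      intro u
      rw [aeval_monomial, map_one, one_mul]
      refine Finset.prod_ne_zero_iff.2 fun i _ => pow_ne_zero _ ?_
      rw [Ne, monomial_eq_zero]
      exact one_ne_zero
    exact h1 u hg
  · refine ⟨u, v, 1, -a, huv, one_ne_zero, neg_ne_zero.2 ha, ?_⟩
    rw [map_neg, sub_eq_add_neg]

/-- the network is toric -/
theorem toric_G4 : (G4 κ hκ).Toric := by
  refine ⟨1 - N, ?_, ?_⟩
  · intro h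
    have h1 := congrArg Matrix.det (minus_plus (κ := κ))
    rw [Matrix.det_mul, Matrix.det_one] at h1
    have h2 : (1 - N : Matrix (Out κ) (Out κ) ℝ).det = 0 := h
    rw [h2, zero_mul] at h1
    exact zero_ne_one h1
  · rw [map_linSubst (A := (1 - N : Matrix (Out κ) (Out κ) ℝ)) minus_plus plus_minus]
    have : (G4 κ hκ).P.comap (linSubst (1 + N : Matrix (Out κ) (Out κ) ℝ)) =
        RingHom.ker (ψ κ) := by
      ext F
      rw [Ideal.mem_comap]
      exact ⟨fun h => le_ker hκ h, fun h => ker_le hκ h⟩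
    rw [this]
    exact toric_ker

theorem not_perfect_G4 : ¬ (G4 κ hκ).NonSinkPerfect := by
  intro h
  have h0 : ¬ (G4 κ hκ).IsSink 0 := fun h => h 2 e02
  have h1 : ¬ (G4 κ hκ).IsSink 1 := fun h => h 2 e12
  have h2 : ¬ (G4 κ hκ).IsSink 2 := fun h => h 3 e23
  rcases h 2 h2 0 h0 1 h1 e02 e12 (by decide) with h | h
  · exact h.2 ⟨rfl, rfl⟩
  · exact absurd h.1 (by decide)

end Q49.TG
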