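import Pool.Agent.Q49.TG.Two

/-!
# Trailing coefficients of polynomials and kernels generated by two-term polynomials
-/

set_option autoImplicit false

namespace Q49.TG

open MvPolynomial

section tc

variable {ν K : Type*} [Field K] (wt : ν → ℕ)

/-- the homomorphism `x_v ↦ x_v X ^ wt v` -/
noncomputable def tau : MvPolynomial ν K →ₐ[K] Polynomial (MvPolynomial ν K) :=
  aeval fun v => Polynomial.C (X v) * Polynomial.X ^ wt v

theorem tau_eval (F : MvPolynomial ν K) : (tau wt F).eval 1 = F := by
  have h : (Polynomial.evalRingHom (1 : MvPolynomial ν K)).comp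
      ((tau wt : MvPolynomial ν K →ₐ[K] _) : MvPolynomial ν K →+* Polynomial (MvPolynomial ν K)) =
      RingHom.id _ := by
    apply ringHom_ext
    · intro r
      rw [RingHom.comp_apply, RingHom.coe_coe, algHom_C, Polynomial.coe_evalRingHom]
      rw [show algebraMap K (Polynomial (MvPolynomial ν K)) r = Polynomial.C (C r) from rfl,
        Polynomial.eval_C, RingHom.id_apply]
    · intro v
      rw [RingHom.comp_apply, RingHom.coe_coe, tau, aeval_X, Polynomial.coe_evalRingHom,
        Polynomial.eval_mul, Polynomial.eval_C, Polynomial.eval_pow, Polynomial.eval_X, one_pow,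
        mul_one, RingHom.id_apply]
  exact DFunLike.congr_fun h F

theorem tau_ne_zero {F : MvPolynomial ν K} (hF : F ≠ 0) : tau wt F ≠ 0 := by
  intro h
  apply hF
  rw [← tau_eval wt F, h, Polynomial.eval_zero]

/-- the part of lowest weight of a polynomial -/
noncomputable def tc (F : MvPolynomial ν K) : MvPolynomial ν K := (tau wt F).trailingCoeff

theorem tc_mul (F G : MvPolynomial ν K) : tc wt (F * G) = tc wt F * tc wt G := by
  unfold tc
  rw [map_mul, Polynomial.trailingCoeff_mul]

theorem tc_ne_zero {F : MvPolynomial ν K} (hF : F ≠ 0) : tc wt F ≠ 0 :=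
  Polynomial.trailingCoeff_nonzero_iff_nonzero.2 (tau_ne_zero wt hF)

theorem tc_zero : tc wt (0 : MvPolynomial ν K) = 0 := by
  unfold tc
  rw [map_zero, Polynomial.trailingCoeff_zero]

theorem tc_C (c : K) : tc wt (C c : MvPolynomial ν K) = C c := by
  unfold tc
  rw [algHom_C]
  rw [show algebraMap K (Polynomial (MvPolynomial ν K)) c = Polynomial.C (C c) from rfl]
  by_cases h : (C c : MvPolynomial ν K) = 0
  · rw [h, map_zero, Polynomial.trailingCoeff_zero]
  · rw [Polynomial.trailingCoeff_eq_coeff_zero]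
    · rw [Polynomial.coeff_C_zero]
    · rwa [Polynomial.coeff_C_zero]

theorem tc_one : tc wt (1 : MvPolynomial ν K) = 1 := tc_C wt 1

theorem tc_pow (F : MvPolynomial ν K) (n : ℕ) : tc wt (F ^ n) = tc wt F ^ n := by
  induction n with
  | zero => rw [pow_zero, pow_zero, tc_one]
  | succ n ih => rw [pow_succ, pow_succ, tc_mul, ih]

theorem tc_prod {ι : Type*} (s : Finset ι) (f : ι → MvPolynomial ν K) :
    tc wt (∏ i ∈ s, f i) = ∏ i ∈ s, tc wt (f i) := by
  classical
  induction s using Finset.induction_on with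
  | empty => rw [Finset.prod_empty, Finset.prod_empty, tc_one]
  | insert a s ha ih => rw [Finset.prod_insert ha, Finset.prod_insert ha, tc_mul, ih]

/-- the weight of a monomial -/
noncomputable def mwt (m : ν →₀ ℕ) : ℕ := m.sum fun v k => k * wt v

theorem tau_monomial (m : ν →₀ ℕ) (c : K) :
    tau wt (monomial m c) = Polynomial.C (monomial m c) * Polynomial.X ^ mwt wt m := by
  unfold tau
  rw [aeval_monomial]
  have h1 : (m.prod fun v k => (Polynomial.C (X v : MvPolynomial ν K) * Polynomial.X ^ wt v) ^ k) =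
      Polynomial.C (m.prod fun v k => (X v : MvPolynomial ν K) ^ k) * Polynomial.X ^ mwt wt m := by
    unfold Finsupp.prod mwt Finsupp.sum
    rw [map_prod, ← Finset.prod_pow_eq_pow_sum, ← Finset.prod_mul_distrib]
    refine Finset.prod_congr rfl fun v _ => ?_
    beta_reduce
    rw [mul_pow, map_pow, ← pow_mul, mul_comm (wt v)]
  rw [h1, monomial_eq, map_mul,
    show algebraMap K (Polynomial (MvPolynomial ν K)) c = Polynomial.C (C c) from rfl]
  ring

/-- The trailing coefficient of a sum of monomials. -/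
theorem tc_sum {ι : Type*} (s : Finset ι) (f : ι → ν →₀ ℕ) (c : ι → K) (d : ℕ)
    (hd : ∀ i ∈ s, d ≤ mwt wt (f i))
    (h0 : ∑ i ∈ s with mwt wt (f i) = d, monomial (f i) (c i) ≠ 0) :
    tc wt (∑ i ∈ s, monomial (f i) (c i)) = ∑ i ∈ s with mwt wt (f i) = d, monomial (f i) (c i) := by
  classical
  unfold tc
  rw [map_sum]
  simp only [tau_monomial]
  set p : Polynomial (MvPolynomial ν K) :=
    ∑ i ∈ s, Polynomial.C (monomial (f i) (c i)) * Polynomial.X ^ mwt wt (f i) with hp
  have hcoeff : ∀ k, p.coeff k = ∑ i ∈ s with mwt wt (f i) = k, monomial (f i) (c i) := by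
    intro k
    rw [hp, Polynomial.finsetSum_coeff, Finset.sum_filter]
    refine Finset.sum_congr rfl fun i _ => ?_
    rw [Polynomial.coeff_C_mul_X_pow]
    by_cases h : mwt wt (f i) = k
    · rw [if_pos h, if_pos h.symm]
    · rw [if_neg h, if_neg (Ne.symm h)]
  have hnat : p.natTrailingDegree = d := by
    apply le_antisymm
    · exact Polynomial.natTrailingDegree_le_of_ne_zero (by rw [hcoeff]; exact h0)
    · refine Polynomial.le_natTrailingDegree ?_ ?_
      · intro hz
        apply h0
        rw [← hcoeff, hz, Polynomial.coeff_zero]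
      · intro k hk
        rw [hcoeff]
        refine Finset.sum_eq_zero fun i hi => ?_
        rw [Finset.mem_filter] at hi
        have := hd i hi.1
        omega
  rw [Polynomial.trailingCoeff, hnat, hcoeff]

theorem tc_monomial (m : ν →₀ ℕ) (c : K) : tc wt (monomial m c) = monomial m c := by
  classical
  by_cases hc : c = 0
  · rw [hc, monomial_zero, tc_zero]
  · have h := tc_sum wt {()} (fun _ => m) (fun _ => c) (mwt wt m) (fun _ _ => le_rfl) (by
      simpa using hc)
    simpa using h

end tc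

/-- more polynomials than variables are algebraically dependent -/
theorem exists_rel {K ν κ : Type} [Field K] [Fintype ν] [Fintype κ]
    (h : Fintype.card ν < Fintype.card κ) (φ : κ → MvPolynomial ν K) :
    ∃ Q : MvPolynomial κ K, Q ≠ 0 ∧ aeval φ Q = 0 := by
  by_contra hcon
  push Not at hcon
  have hai : AlgebraicIndependent K φ := by
    rw [algebraicIndependent_iff]
    intro p hp
    by_contra h0
    exact hcon p h0 hp
  have h1 := hai.cardinalMk_le_trdeg
  rw [MvPolynomial.trdeg_of_isDomain, Cardinal.lift_id, Cardinal.mk_fintype,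
    Cardinal.mk_fintype] at h1
  exact absurd (by exact_mod_cast h1) (not_le.2 h)

/-- The data of a family `s` of polynomials whose kernel is generated by polynomials with at most
two terms, together with a large subfamily whose parts of lowest weight are independent monomials. -/
structure Setup (K : Type) [Field K] (ι κ ν : Type) [Fintype κ] [Fintype ν] where
  wt : ν → ℕ
  s : ι → MvPolynomial ν K
  j : κ → ι
  j_inj : Function.Injective j
  card_le : Fintype.card ν ≤ Fintype.card κ
  e : κ → ν →₀ ℕ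
  tc_j : ∀ q, tc wt (s (j q)) = monomial (e q) 1
  e_inj : Function.Injective fun M : κ →₀ ℕ => M.sum fun q k => k • e q
  root : ∀ (x y : MvPolynomial ν K) (N : ℕ), N ≠ 0 → x ^ N = y ^ N → ∃ ζ : K, x = C ζ * y
  S : Set (MvPolynomial ι K)
  two : ∀ f ∈ S, f.support.card ≤ 2
  ker_eq : RingHom.ker (aeval (R := K) s) = Ideal.span S

namespace Setup

variable {K : Type} [Field K] {ι κ ν : Type} [Fintype κ] [Fintype ν] (D : Setup K ι κ ν)

/-- monomials in the subfamily -/
noncomputable def sm (M : κ →₀ ℕ) : MvPolynomial ν K := aeval (fun q => D.s (D.j q)) (monomial M (1 : K))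

theorem sj_ne_zero (q : κ) : D.s (D.j q) ≠ 0 := by
  intro h
  have := D.tc_j q
  rw [h, tc_zero] at this
  exact one_ne_zero (α := K) ((monomial_eq_zero (s := D.e q)).1 this.symm)

theorem sm_eq (M : κ →₀ ℕ) : D.sm M = M.prod fun q k => D.s (D.j q) ^ k := by
  unfold sm
  rw [aeval_monomial, map_one, one_mul]

theorem sm_add (M M' : κ →₀ ℕ) : D.sm (M + M') = D.sm M * D.sm M' := by
  rw [D.sm_eq, D.sm_eq, D.sm_eq, Finsupp.prod_add_index' (by simp) (by intros; rw [pow_add])]

theorem sm_zero : D.sm 0 = 1 := by rw [D.sm_eq, Finsupp.prod_zero_index]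

theorem sm_single (q : κ) : D.sm (Finsupp.single q 1) = D.s (D.j q) := by
  rw [D.sm_eq, Finsupp.prod_single_index (by simp), pow_one]

theorem sm_nsmul (k : ℕ) (M : κ →₀ ℕ) : D.sm (k • M) = D.sm M ^ k := by
  induction k with
  | zero => rw [zero_smul, D.sm_zero, pow_zero]
  | succ k ih => rw [succ_nsmul, D.sm_add, ih, pow_succ]

theorem sm_ne_zero (M : κ →₀ ℕ) : D.sm M ≠ 0 := by
  rw [D.sm_eq]
  exact Finset.prod_ne_zero_iff.2 fun q _ => pow_ne_zero _ (D.sj_ne_zero q)

/-- the exponent of the lowest part -/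
noncomputable def ex (M : κ →₀ ℕ) : ν →₀ ℕ := M.sum fun q k => k • D.e q

theorem tc_sm (M : κ →₀ ℕ) : tc D.wt (D.sm M) = monomial (D.ex M) 1 := by
  rw [D.sm_eq]
  unfold Finsupp.prod ex Finsupp.sum
  rw [tc_prod]
  have h1 : ∀ q ∈ M.support, tc D.wt (D.s (D.j q) ^ M q) = monomial (M q • D.e q) (1 : K) := by
    intro q _
    rw [tc_pow, D.tc_j, monomial_pow, one_pow]
  rw [Finset.prod_congr rfl h1, monomial_sum_one]

theorem ex_inj {M M' : κ →₀ ℕ} (h : D.ex M = D.ex M') : M = M' := D.e_inj h

/-- `x` is, up to roots, a quotient of monomials in the subfamily -/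
def Rel (x : MvPolynomial ν K) : Prop :=
  x ≠ 0 ∧ ∃ N : ℕ, N ≠ 0 ∧ ∃ (M M' : κ →₀ ℕ) (c : K), c ≠ 0 ∧ x ^ N * D.sm M = C c * D.sm M'

theorem Rel.pow_form {x : MvPolynomial ν K} {N : ℕ} {M M' : κ →₀ ℕ} {c : K}
    (h : x ^ N * D.sm M = C c * D.sm M') (k : ℕ) :
    x ^ (N * k) * D.sm (k • M) = C (c ^ k) * D.sm (k • M') := by
  rw [D.sm_nsmul, D.sm_nsmul, pow_mul, ← mul_pow, h, mul_pow, map_pow]

theorem rel_one : D.Rel 1 := by
  refine ⟨one_ne_zero, 1, one_ne_zero, 0, 0, 1, one_ne_zero, ?_⟩
  rw [one_pow, one_mul, map_one, one_mul]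

theorem rel_C {c : K} (hc : c ≠ 0) : D.Rel (C c) := by
  refine ⟨by rw [Ne, C_eq_zero]; exact hc, 1, one_ne_zero, 0, 0, c, hc, ?_⟩
  rw [pow_one]

theorem Rel.mul {x y : MvPolynomial ν K} (hx : D.Rel x) (hy : D.Rel y) : D.Rel (x * y) := by
  obtain ⟨hx0, N, hN, M, M', c, hc, h⟩ := hx
  obtain ⟨hy0, L, hL, A, A', d, hd, h'⟩ := hy
  refine ⟨mul_ne_zero hx0 hy0, N * L, mul_ne_zero hN hL, L • M + N • A, L • M' + N • A',
    c ^ L * d ^ N, mul_ne_zero (pow_ne_zero _ hc) (pow_ne_zero _ hd), ?_⟩
  have h1 := Rel.pow_form D h L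
  have h2 := Rel.pow_form D h' N
  rw [D.sm_add, D.sm_add, mul_pow, map_mul]
  calc x ^ (N * L) * y ^ (N * L) * (D.sm (L • M) * D.sm (N • A)) =
      (x ^ (N * L) * D.sm (L • M)) * (y ^ (L * N) * D.sm (N • A)) := by rw [mul_comm L N]; ring
    _ = _ := by rw [h1, h2]; ring

theorem Rel.prod {α : Type*} (s : Finset α) (f : α → MvPolynomial ν K)
    (h : ∀ a ∈ s, D.Rel (f a)) : D.Rel (∏ a ∈ s, f a) := by
  classical
  induction s using Finset.induction_on with
  | empty => rw [Finset.prod_empty]; exact D.rel_one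
  | insert a s ha ih =>
    rw [Finset.prod_insert ha]
    exact Rel.mul D (h a (Finset.mem_insert_self _ _))
      (ih fun b hb => h b (Finset.mem_insert_of_mem hb))

theorem Rel.pow {x : MvPolynomial ν K} (hx : D.Rel x) (n : ℕ) : D.Rel (x ^ n) := by
  induction n with
  | zero => rw [pow_zero]; exact D.rel_one
  | succ n ih => rw [pow_succ]; exact Rel.mul D ih hx

/-- `x` is determined by its part of lowest weight -/
theorem Rel.eq_of_tc {x y : MvPolynomial ν K} (hx : D.Rel x) (hy : D.Rel y)
    (h : tc D.wt x = tc D.wt y) : x = y := by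
  obtain ⟨hx0, N, hN, M, M', c, hc, h1⟩ := hx
  obtain ⟨hy0, L, hL, A, A', d, hd, h2⟩ := hy
  have h3 := Rel.pow_form D h1 L
  have h4 := Rel.pow_form D h2 N
  rw [mul_comm L N] at h4
  -- comparison of the lowest parts
  have t3 := congrArg (tc D.wt) h3
  have t4 := congrArg (tc D.wt) h4
  rw [tc_mul, tc_mul, tc_C, tc_pow, D.tc_sm, D.tc_sm, C_mul_monomial, mul_one] at t3 t4
  rw [← h] at t4
  have t5 : (monomial (D.ex (L • M')) (c ^ L) : MvPolynomial ν K) * monomial (D.ex (N • A)) 1 =
      monomial (D.ex (N • A')) (d ^ N) * monomial (D.ex (L • M)) 1 := by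
    rw [← t3, ← t4]
    ring
  rw [monomial_mul, monomial_mul, mul_one, mul_one] at t5
  have hexadd : ∀ B B' : κ →₀ ℕ, D.ex B + D.ex B' = D.ex (B + B') := by
    intro B B'
    unfold ex
    rw [Finsupp.sum_add_index' (by simp) (by intros; rw [add_smul])]
  rw [hexadd, hexadd] at t5
  rcases (monomial_eq_monomial_iff _ _ _ _).1 t5 with ⟨h5, h6⟩ | ⟨h5, -⟩
  · have h7 := D.ex_inj h5
    -- hence the powers are equal
    have h8 : x ^ (N * L) = y ^ (N * L) := by
      have h9 : x ^ (N * L) * (D.sm (L • M) * D.sm (N • A)) =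
          y ^ (N * L) * (D.sm (L • M) * D.sm (N • A)) := by
        calc x ^ (N * L) * (D.sm (L • M) * D.sm (N • A)) =
            (x ^ (N * L) * D.sm (L • M)) * D.sm (N • A) := by ring
          _ = C (c ^ L) * (D.sm (L • M') * D.sm (N • A)) := by rw [h3]; ring
          _ = C (d ^ N) * (D.sm (N • A') * D.sm (L • M)) := by
            rw [← D.sm_add, ← D.sm_add, h7, h6]
          _ = (y ^ (N * L) * D.sm (N • A)) * D.sm (L • M) := by rw [h4]; ring
          _ = _ := by ring
      exact mul_right_cancel₀ (mul_ne_zero (D.sm_ne_zero _) (D.sm_ne_zero _)) h9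
    obtain ⟨ζ, hζ⟩ := D.root x y _ (mul_ne_zero hN hL) h8
    have h9 : tc D.wt y = C ζ * tc D.wt y := by
      have h10 : tc D.wt x = C ζ * tc D.wt y := by rw [hζ, tc_mul, tc_C]
      exact h.symm.trans h10
    have h10 : (C ζ : MvPolynomial ν K) = 1 := by
      have h11 : (C ζ - 1) * tc D.wt y = 0 := by rw [sub_mul, ← h9, one_mul, sub_self]
      rcases mul_eq_zero.1 h11 with h12 | h12
      · exact sub_eq_zero.1 h12
      · exact absurd h12 (tc_ne_zero _ hy0)
    rw [hζ, h10, one_mul]
  · exact absurd h5 (pow_ne_zero _ hc)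

/-- the part of lowest weight is a term -/
theorem Rel.tc_eq {x : MvPolynomial ν K} (hx : D.Rel x) :
    ∃ (m : ν →₀ ℕ) (b : K), b ≠ 0 ∧ tc D.wt x = monomial m b := by
  obtain ⟨hx0, N, hN, M, M', c, hc, h⟩ := hx
  have t := congrArg (tc D.wt) h
  rw [tc_mul, tc_mul, tc_C, tc_pow, D.tc_sm, D.tc_sm, C_mul_monomial, mul_one] at t
  have h1 : tc D.wt x ∣ monomial (D.ex M') c := by
    rw [← t]
    exact Dvd.dvd.mul_right (dvd_pow_self _ hN) _
  obtain ⟨m, b, -, -, h2⟩ := (dvd_monomial_iff_exists hc).1 h1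
  refine ⟨m, b, ?_, h2⟩
  rintro rfl
  rw [monomial_zero] at h2
  exact tc_ne_zero _ hx0 h2

/-- all members of the family are quotients of monomials in the subfamily, up to roots -/
theorem rel_s {p : ι} (hp : D.s p ≠ 0) : D.Rel (D.s p) := by
  classical
  by_cases hpj : ∃ q, D.j q = p
  · obtain ⟨q, rfl⟩ := hpj
    refine ⟨hp, 1, one_ne_zero, 0, Finsupp.single q 1, 1, one_ne_zero, ?_⟩
    rw [D.sm_zero, D.sm_single, pow_one, map_one, mul_one, one_mul]
  · push Not at hpj
    let f : Option κ → ι := fun o => o.elim p D.j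
    have hf : Function.Injective f := by
      intro a b hab
      cases a with
      | none =>
        cases b with
        | none => rfl
        | some b => exact absurd hab.symm (hpj b)
      | some a =>
        cases b with
        | none => exact absurd hab (hpj a)
        | some b => exact congrArg some (D.j_inj hab)
    obtain ⟨Q, hQ0, hQ⟩ := exists_rel (κ := Option κ) (by
      rw [Fintype.card_option]
      exact Nat.lt_succ_of_le D.card_le) (fun o => D.s (f o))
    have hker : rename f Q ∈ RingHom.ker (aeval (R := K) D.s) := by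
      rw [RingHom.mem_ker, aeval_rename]
      exact hQ
    have hne : rename f Q ≠ 0 := by
      intro h
      exact hQ0 (rename_injective f hf (by rw [h, map_zero]))
    have hval : ∀ m : Option κ →₀ ℕ, aeval D.s (monomial (m.mapDomain f) (1 : K)) =
        D.s p ^ (m none) * D.sm m.some := by
      intro m
      rw [← rename_monomial, aeval_rename, aeval_monomial, map_one, one_mul, D.sm_eq]
      rw [Finsupp.prod_option_index _ _ (by simp) (by intros; rw [pow_add])]
      rfl
    rw [D.ker_eq] at hker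
    rcases exists_of_mem_span D.two hker hne with ⟨m, hm, hmI⟩ | ⟨m, hm, m', hm', hmm, c, hc, hI⟩
    · exfalso
      obtain ⟨m0, rfl, -⟩ := coeff_rename_ne_zero f Q m (mem_support_iff.1 hm)
      rw [← D.ker_eq, RingHom.mem_ker, hval] at hmI
      exact mul_ne_zero (pow_ne_zero _ hp) (D.sm_ne_zero _) hmI
    · obtain ⟨m0, rfl, -⟩ := coeff_rename_ne_zero f Q m (mem_support_iff.1 hm)
      obtain ⟨m1, rfl, -⟩ := coeff_rename_ne_zero f Q m' (mem_support_iff.1 hm')
      have hne' : m0 ≠ m1 := fun h => hmm (by rw [h])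
      rw [← D.ker_eq, RingHom.mem_ker, map_sub, hval, sub_eq_zero] at hI
      have h1 : (monomial (m1.mapDomain f) c : MvPolynomial ι K) =
          C c * monomial (m1.mapDomain f) 1 := by rw [C_mul_monomial, mul_one]
      rw [h1, map_mul, hval, algHom_C] at hI
      change D.s p ^ m0 none * D.sm m0.some = C c * (D.s p ^ m1 none * D.sm m1.some) at hI
      rcases lt_trichotomy (m0 none) (m1 none) with hlt | heq | hlt
      · obtain ⟨k, hk⟩ := Nat.exists_eq_add_of_lt hlt
        refine ⟨hp, k + 1, by omega, m1.some, m0.some, c⁻¹, inv_ne_zero hc, ?_⟩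
        have h2 : D.s p ^ m0 none * (C c⁻¹ * D.sm m0.some) =
            D.s p ^ m0 none * (D.s p ^ (k + 1) * D.sm m1.some) := by
          calc D.s p ^ m0 none * (C c⁻¹ * D.sm m0.some) =
              C c⁻¹ * (D.s p ^ m0 none * D.sm m0.some) := by ring
            _ = C (c⁻¹ * c) * (D.s p ^ m1 none * D.sm m1.some) := by rw [hI, map_mul]; ring
            _ = _ := by rw [inv_mul_cancel₀ hc, map_one, hk]; ring
        exact (mul_left_cancel₀ (pow_ne_zero _ hp) h2).symm
      · exfalso
        rw [heq] at hI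
        have h2 : D.sm m0.some = C c * D.sm m1.some := by
          have h3 : D.s p ^ m1 none * D.sm m0.some = D.s p ^ m1 none * (C c * D.sm m1.some) := by
            rw [hI]; ring
          exact mul_left_cancel₀ (pow_ne_zero _ hp) h3
        have h3 := congrArg (tc D.wt) h2
        rw [tc_mul, tc_C, D.tc_sm, D.tc_sm, C_mul_monomial, mul_one] at h3
        rcases (monomial_eq_monomial_iff _ _ _ _).1 h3 with ⟨h5, -⟩ | ⟨h5, -⟩
        · apply hne'
          have h6 := D.ex_inj h5
          ext o
          cases o with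
          | none => exact heq
          | some q => exact DFunLike.congr_fun h6 q
        · exact one_ne_zero h5
      · obtain ⟨k, hk⟩ := Nat.exists_eq_add_of_lt hlt
        refine ⟨hp, k + 1, by omega, m0.some, m1.some, c, hc, ?_⟩
        have h2 : D.s p ^ m1 none * (D.s p ^ (k + 1) * D.sm m0.some) =
            D.s p ^ m1 none * (C c * D.sm m1.some) := by
          calc D.s p ^ m1 none * (D.s p ^ (k + 1) * D.sm m0.some) =
              D.s p ^ m0 none * D.sm m0.some := by rw [hk]; ring
            _ = _ := by rw [hI]; ring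
        exact mul_left_cancel₀ (pow_ne_zero _ hp) h2

/-- monomials in the family -/
theorem rel_mon {u : ι →₀ ℕ} (hu : aeval D.s (monomial u (1 : K)) ≠ 0) :
    D.Rel (aeval D.s (monomial u (1 : K))) := by
  rw [aeval_monomial, map_one, one_mul] at hu ⊢
  refine Rel.prod D _ _ fun i hi => Rel.pow D (D.rel_s ?_) _
  intro h
  apply hu
  refine Finset.prod_eq_zero hi ?_
  beta_reduce
  rw [h, zero_pow (Finsupp.mem_support_iff.1 hi)]

/-- Two monomials in the family with proportional lowest parts are proportional. -/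
theorem mon_eq_of_tc {u v : ι →₀ ℕ} {a : K} (ha : a ≠ 0)
    (hu : aeval D.s (monomial u (1 : K)) ≠ 0) (hv : aeval D.s (monomial v (1 : K)) ≠ 0)
    (h : tc D.wt (aeval D.s (monomial u (1 : K))) =
      C a * tc D.wt (aeval D.s (monomial v (1 : K)))) :
    aeval D.s (monomial u (1 : K)) = C a * aeval D.s (monomial v (1 : K)) :=
  Rel.eq_of_tc D (D.rel_mon hu) (Rel.mul D (D.rel_C ha) (D.rel_mon hv))
    (by rw [h, tc_mul, tc_C])

end Setup

end Q49.TG
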