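import Pool.Agent.Q49.TG.TrekDef
import Pool.Agent.Q49.TG.Tc

/-!
# Combinatorics of treks
-/

set_option autoImplicit false

namespace Q49.TG

open MvPolynomial

/-- A path is determined by its start and its set of edges. -/
theorem path_ext {V : Type*} {H : SimpleGraph V} {u v : V} {p q : H.Walk u v} (hp : p.IsPath)
    (hq : q.IsPath) (h : ∀ e, e ∈ p.edges ↔ e ∈ q.edges) : p = q := by
  induction p with
  | nil => exact (SimpleGraph.Walk.eq_nil_iff_nil.2 (SimpleGraph.Walk.isPath_iff_nil.1 hq)).symm
  | @cons u v w hadj p ih =>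
    rw [SimpleGraph.Walk.cons_isPath_iff] at hp
    obtain ⟨hp, hu⟩ := hp
    cases q with
    | nil => exact absurd p.end_mem_support hu
    | @cons _ v' _ hadj' q =>
      have h1 : s(u, v) ∈ (SimpleGraph.Walk.cons hadj' q).edges := (h _).1 (by simp)
      have h2 := hq.eq_snd_of_mem_edges h1
      rw [SimpleGraph.Walk.snd_cons] at h2
      subst h2
      rw [SimpleGraph.Walk.cons_isPath_iff] at hq
      obtain ⟨hq, hu'⟩ := hq
      have hp1 : s(u, v) ∉ p.edges := fun h => hu (p.fst_mem_support_of_mem_edges h)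
      have hq1 : s(u, v) ∉ q.edges := fun h => hu' (q.fst_mem_support_of_mem_edges h)
      rw [ih hp hq fun e => ?_]
      have h3 := h e
      rw [SimpleGraph.Walk.edges_cons, SimpleGraph.Walk.edges_cons, List.mem_cons, List.mem_cons]
        at h3
      by_cases he : e = s(u, v)
      · rw [he]
        exact ⟨fun h => absurd h hp1, fun h => absurd h hq1⟩
      · constructor
        · intro h4
          exact (h3.1 (Or.inr h4)).resolve_left he
        · intro h4
          exact (h3.2 (Or.inr h4)).resolve_left he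

namespace Dag

variable {n : ℕ} {G : Dag n}

theorem adj_of_edge {i j : Fin n} (h : G.edge i j) : G.skel.Adj i j := Or.inl h

/-- the undirected edge of a step is the one of its directed edge -/
theorem dirEdge_spec (d : G.skel.Dart) :
    s((G.dirEdge d).1.1, (G.dirEdge d).1.2) = d.edge := by
  unfold dirEdge
  split_ifs with h
  · rfl
  · exact Sym2.eq_swap

/-- The directed edge is determined by the undirected edge. -/
theorem edges_ext {e f : G.Edges} (h : s(e.1.1, e.1.2) = s(f.1.1, f.1.2)) : e = f := by
  rcases Sym2.eq_iff.1 h with ⟨h1, h2⟩ | ⟨h1, h2⟩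
  · exact Subtype.ext (Prod.ext h1 h2)
  · exfalso
    have h3 := G.lt_of_edge _ _ e.2
    have h4 := G.lt_of_edge _ _ f.2
    rw [h1, h2] at h3
    exact lt_asymm h3 h4

/-- the exponent of the monomial of a path -/
noncomputable def wex {i j : Fin n} (p : G.skel.Walk i j) : (Fin n ⊕ G.Edges) →₀ ℕ :=
  (p.darts.map fun d => Finsupp.single (Sum.inr (G.dirEdge d)) 1).sum

/-- the exponent of the monomial of a trek -/
noncomputable def Trek.ex {i j : Fin n} (P : G.Trek i j) : (Fin n ⊕ G.Edges) →₀ ℕ :=
  Finsupp.single (Sum.inl P.top) 1 + wex P.1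

theorem list_prod_monomial {α τ : Type*} (l : List α) (f : α → τ →₀ ℕ) :
    (l.map fun a => (monomial (f a) 1 : MvPolynomial τ ℂ)).prod = monomial (l.map f).sum 1 := by
  induction l with
  | nil => rfl
  | cons a l ih => rw [List.map_cons, List.prod_cons, ih, monomial_mul, List.map_cons,
      List.sum_cons, one_mul]

theorem Trek.term_eq {i j : Fin n} (P : G.Trek i j) : P.term = monomial P.ex 1 := by
  unfold Trek.term Trek.ex
  have h : (P.1.darts.map fun d => (X (Sum.inr (G.dirEdge d)) : G.Ring)).prod =
      monomial (wex P.1) 1 := list_prod_monomial _ _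
  rw [h, X, monomial_mul, one_mul]

theorem mwt_add {ν : Type*} (wt : ν → ℕ) (m m' : ν →₀ ℕ) :
    mwt wt (m + m') = mwt wt m + mwt wt m' :=
  Finsupp.sum_add_index' (by simp) (by intros; ring)

theorem mwt_single {ν : Type*} (wt : ν → ℕ) (v : ν) (k : ℕ) :
    mwt wt (Finsupp.single v k) = k * wt v :=
  Finsupp.sum_single_index (by simp)

variable (G) in
/-- the weight: the variables `a_i` have weight zero, the variables `λ_e` have weight one -/
def wt : Fin n ⊕ G.Edges → ℕ := Sum.elim (fun _ => 0) fun _ => 1

theorem mwt_wex {i j : Fin n} (p : G.skel.Walk i j) : mwt G.wt (wex p) = p.length := by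
  unfold wex
  rw [← p.length_darts]
  induction p.darts with
  | nil => simp [mwt]
  | cons a l ih =>
    rw [List.map_cons, List.sum_cons, mwt_add, ih, mwt_single, List.length_cons]
    change 1 * 1 + l.length = _
    ring

theorem Trek.mwt_ex {i j : Fin n} (P : G.Trek i j) : mwt G.wt P.ex = P.length := by
  unfold Trek.ex
  rw [mwt_add, mwt_wex, mwt_single]
  change 1 * 0 + P.1.length = P.1.length
  omega

theorem wex_inr {i j : Fin n} (p : G.skel.Walk i j) (e : G.Edges) :
    wex p (Sum.inr e) ≠ 0 ↔ s(e.1.1, e.1.2) ∈ p.edges := by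
  unfold wex SimpleGraph.Walk.edges
  induction p.darts with
  | nil => simp
  | cons a l ih =>
    rw [List.map_cons, List.sum_cons, List.map_cons, List.mem_cons, ← ih, Finsupp.add_apply]
    have h1 : (Finsupp.single (Sum.inr (G.dirEdge a)) 1 : (Fin n ⊕ G.Edges) →₀ ℕ) (Sum.inr e) ≠ 0 ↔
        s(e.1.1, e.1.2) = a.edge := by
      rw [← dirEdge_spec]
      constructor
      · intro h
        by_contra h2
        apply h
        rw [Finsupp.single_apply, if_neg]
        intro h3
        apply h2
        rw [Sum.inr_injective h3]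
      · intro h
        rw [edges_ext h, Finsupp.single_eq_same]
        exact one_ne_zero
    rw [← h1]
    omega

theorem wex_inl {i j : Fin n} (p : G.skel.Walk i j) (v : Fin n) : wex p (Sum.inl v) = 0 := by
  unfold wex
  induction p.darts with
  | nil => simp
  | cons a l ih =>
    rw [List.map_cons, List.sum_cons, Finsupp.add_apply, ih, Finsupp.single_apply, if_neg]
    exact Sum.inr_ne_inl

/-- Different treks have different monomials. -/
theorem Trek.ex_inj {i j : Fin n} {P Q : G.Trek i j} (h : P.ex = Q.ex) : P = Q := by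
  apply Subtype.ext
  refine path_ext P.2.1 Q.2.1 fun e => ?_
  have h1 : ∀ e : G.Edges, wex P.1 (Sum.inr e) = wex Q.1 (Sum.inr e) := by
    intro e
    have h2 := DFunLike.congr_fun h (Sum.inr e)
    unfold Trek.ex at h2
    rw [Finsupp.add_apply, Finsupp.add_apply, Finsupp.single_apply, Finsupp.single_apply,
      if_neg Sum.inl_ne_inr, if_neg Sum.inl_ne_inr, zero_add, zero_add] at h2
    exact h2
  have h2 : ∀ e : G.Edges, s(e.1.1, e.1.2) ∈ P.1.edges ↔ s(e.1.1, e.1.2) ∈ Q.1.edges := by
    intro e
    rw [← wex_inr, ← wex_inr, h1]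
  -- every edge of a walk comes from a directed edge
  have h3 : ∀ (a b : Fin n), G.skel.Adj a b → ∃ f : G.Edges, s(a, b) = s(f.1.1, f.1.2) := by
    rintro a b (hab | hab)
    · exact ⟨⟨(a, b), hab⟩, rfl⟩
    · exact ⟨⟨(b, a), hab⟩, Sym2.eq_swap⟩
  have h4 : ∀ e, e ∈ G.skel.edgeSet → (e ∈ P.1.edges ↔ e ∈ Q.1.edges) := by
    intro e
    induction e using Sym2.ind with
    | _ a b =>
      intro he
      obtain ⟨f, hf⟩ := h3 a b he
      rw [hf]
      exact h2 f
  constructor
  · intro he
    exact (h4 e (P.1.edges_subset_edgeSet he)).1 he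
  · intro he
    exact (h4 e (Q.1.edges_subset_edgeSet he)).2 he

/-! ### special treks -/

/-- the trivial trek -/
def trivTrek (G : Dag n) (i : Fin n) : G.Trek i i :=
  ⟨SimpleGraph.Walk.nil, SimpleGraph.Walk.IsPath.nil, fun k hk => by simp at hk⟩

theorem trek_self {i : Fin n} (P : G.Trek i i) : P = trivTrek G i :=
  Subtype.ext (SimpleGraph.Walk.eq_nil_iff_nil.2 (SimpleGraph.Walk.isPath_iff_nil.1 P.2.1))

theorem trivTrek_ex (i : Fin n) : (trivTrek G i).ex = Finsupp.single (Sum.inl i) 1 := by
  have h1 : (trivTrek G i).top = i := by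
    apply le_antisymm
    · exact Finset.min'_le _ _ (List.mem_toFinset.2 (trivTrek G i).1.start_mem_support)
    · refine Finset.le_min' _ _ _ fun x hx => ?_
      rw [List.mem_toFinset] at hx
      have h2 : (trivTrek G i).1.support = [i] := rfl
      rw [h2, List.mem_singleton] at hx
      exact hx.ge
  unfold Trek.ex
  rw [h1]
  have : wex (trivTrek G i).1 = 0 := rfl
  rw [this, add_zero]

/-- the trek along an edge -/
def edgeTrek (e : G.Edges) : G.Trek e.1.1 e.1.2 :=
  ⟨SimpleGraph.Walk.cons (adj_of_edge e.2) SimpleGraph.Walk.nil, by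
    rw [SimpleGraph.Walk.cons_isPath_iff]
    refine ⟨SimpleGraph.Walk.IsPath.nil, ?_⟩
    rw [SimpleGraph.Walk.support_nil, List.mem_singleton]
    exact (G.lt_of_edge _ _ e.2).ne, fun k hk => by simp at hk⟩

theorem edgeTrek_length (e : G.Edges) : (edgeTrek e).length = 1 := rfl

theorem edgeTrek_ex (e : G.Edges) : (edgeTrek e).ex =
    Finsupp.single (Sum.inl e.1.1) 1 + Finsupp.single (Sum.inr e) 1 := by
  have h1 : (edgeTrek e).top = e.1.1 := by
    apply le_antisymm
    · exact Finset.min'_le _ _ (List.mem_toFinset.2 (edgeTrek e).1.start_mem_support)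
    · refine Finset.le_min' _ _ _ fun x hx => ?_
      rw [List.mem_toFinset] at hx
      have h2 : (edgeTrek e).1.support = [e.1.1, e.1.2] := rfl
      rw [h2] at hx
      simp only [List.mem_cons, List.not_mem_nil, or_false] at hx
      rcases hx with rfl | rfl
      · exact le_rfl
      · exact (G.lt_of_edge _ _ e.2).le
  unfold Trek.ex
  rw [h1]
  congr 1
  unfold wex
  have h2 : (edgeTrek e).1.darts = [⟨(e.1.1, e.1.2), adj_of_edge e.2⟩] := rfl
  rw [h2, List.map_cons, List.map_nil, List.sum_cons, List.sum_nil, add_zero]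
  congr 2
  apply edges_ext
  rw [dirEdge_spec]
  rfl

theorem walk_short {V : Type*} {H : SimpleGraph V} {u v : V} (p : H.Walk u v) (huv : u ≠ v)
    (h : p.length ≤ 1) : ∃ hadj : H.Adj u v, p = SimpleGraph.Walk.cons hadj SimpleGraph.Walk.nil := by
  cases p with
  | nil => exact absurd rfl huv
  | cons hadj q =>
    cases q with
    | nil => exact ⟨hadj, rfl⟩
    | cons hadj' q' =>
      exfalso
      rw [SimpleGraph.Walk.length_cons, SimpleGraph.Walk.length_cons] at h
      omega

/-- The edge is the only trek of length at most one between adjacent vertices. -/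
theorem eq_edgeTrek (e : G.Edges) {P : G.Trek e.1.1 e.1.2} (h : P.length ≤ 1) :
    P = edgeTrek e := by
  apply Subtype.ext
  obtain ⟨hadj, h1⟩ := walk_short P.1 (G.lt_of_edge _ _ e.2).ne h
  rw [h1]
  rfl

end Dag

end Q49.TG
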