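import Mathlib

/-!
# Treks of directed acyclic graphs, the simple trek rule and the shortest trek map
-/

set_option autoImplicit false

namespace Q49.TG

open MvPolynomial

/-- A directed acyclic graph on the vertices `0, …, n-1`, labelled so that every edge `i → j` has
`i < j`. -/
structure Dag (n : ℕ) where
  /-- `edge i j` says that `i → j` is an edge -/
  edge : Fin n → Fin n → Prop
  lt_of_edge : ∀ i j, edge i j → i < j

namespace Dag

variable {n : ℕ} (G : Dag n)

/-- the underlying undirected graph -/
def skel : SimpleGraph (Fin n) where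
  Adj i j := G.edge i j ∨ G.edge j i
  symm := ⟨fun _ _ h => h.symm⟩
  loopless := ⟨fun i h => by
    rcases h with h | h <;> exact lt_irrefl i (G.lt_of_edge i i h)⟩

/-- The set `E(G)` of edges: the pairs `(k, l)` with `k → l`. -/
abbrev Edges : Type := {e : Fin n × Fin n // G.edge e.1 e.2}

/-- No interior vertex of the path is a collider: for no three consecutive vertices `a`, `b`, `c` of
the path one has `a → b` and `c → b`. -/
def NoCollider {i j : Fin n} (p : G.skel.Walk i j) : Prop :=
  ∀ k, k + 2 ≤ p.length →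
    ¬ (G.edge (p.getVert k) (p.getVert (k + 1)) ∧ G.edge (p.getVert (k + 2)) (p.getVert (k + 1)))

/-- `T(i, j)`: the simple treks between `i` and `j`, that is the paths (without repeated vertices) in
the underlying undirected graph that have no collider. -/
def Trek (i j : Fin n) : Type := {p : G.skel.Walk i j // p.IsPath ∧ G.NoCollider p}

noncomputable instance (i j : Fin n) : Fintype (G.Trek i j) := by
  classical
  exact Fintype.ofInjective (β := G.skel.Path i j) (fun P => ⟨P.1, P.2.1⟩)
    (fun P Q h => Subtype.ext (congrArg (fun R : G.skel.Path i j => R.1) h))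

/-- the length of a trek -/
def Trek.length {G : Dag n} {i j : Fin n} (P : G.Trek i j) : ℕ := P.1.length

/-- The top of a trek. As the labels increase along the edges and the trek has no collider, it is
the smallest vertex of the trek. -/
def Trek.top {G : Dag n} {i j : Fin n} (P : G.Trek i j) : Fin n :=
  P.1.support.toFinset.min' ⟨i, List.mem_toFinset.2 P.1.start_mem_support⟩

open Classical in
/-- the directed edge underlying a step of a path -/
noncomputable def dirEdge (d : G.skel.Dart) : G.Edges :=
  if h : G.edge d.fst d.snd then ⟨(d.fst, d.snd), h⟩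
  else ⟨(d.snd, d.fst), Or.resolve_left d.adj h⟩

/-- The polynomial ring in the variables `a_i` (`Sum.inl i`) for `i ∈ [n]` and `λ_e` (`Sum.inr e`)
for the edges `e`. -/
abbrev Ring : Type := MvPolynomial (Fin n ⊕ G.Edges) ℂ

/-- `a_{top(P)} ∏_{k → l ∈ P} λ_{kl}` -/
noncomputable def Trek.term {G : Dag n} {i j : Fin n} (P : G.Trek i j) : G.Ring :=
  X (Sum.inl P.top) * (P.1.darts.map fun d => X (Sum.inr (G.dirEdge d))).prod

end Dag

/-- the indices of the variables `σ_{ij}`, `i ≤ j` -/
abbrev Pairs (n : ℕ) : Type := {p : Fin n × Fin n // p.1 ≤ p.2}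

namespace Dag

variable {n : ℕ} (G : Dag n)

/-- the simple trek rule `σ_{ij} ↦ ∑_{P ∈ T(i,j)} a_{top(P)} ∏_{k → l ∈ P} λ_{kl}` -/
noncomputable def phi : MvPolynomial (Pairs n) ℂ →ₐ[ℂ] G.Ring :=
  aeval fun p => ∑ P : G.Trek p.1.1 p.1.2, P.term

/-- the vanishing ideal `I_G = ker φ_G` -/
noncomputable def vanishingIdeal : Ideal (MvPolynomial (Pairs n) ℂ) := RingHom.ker G.phi

/-- `P` is a trek of minimal length in `T(i, j)` -/
def Trek.IsShortest {G : Dag n} {i j : Fin n} (P : G.Trek i j) : Prop :=
  ∀ Q : G.Trek i j, P.length ≤ Q.length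

/-- `ψ_G` is defined: whenever `T(i, j)` is not empty, it has a unique trek of minimal length. -/
def PsiDefined : Prop :=
  ∀ i j : Fin n, i < j → Nonempty (G.Trek i j) → ∃! P : G.Trek i j, P.IsShortest

open Classical in
/-- The shortest trek map: `σ_{ij} ↦ a_{top(P)} ∏_{k → l ∈ P} λ_{kl}` for the shortest trek `P` in
`T(i, j)` (which is the trivial trek for `i = j`), and `σ_{ij} ↦ 0` if `T(i, j)` is empty. (It is
only meaningful if `G.PsiDefined`.) -/
noncomputable def psi : MvPolynomial (Pairs n) ℂ →ₐ[ℂ] G.Ring :=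
  aeval fun p => if h : ∃ P : G.Trek p.1.1 p.1.2, P.IsShortest then h.choose.term else 0

/-- the shortest trek ideal `ST_G = ker ψ_G` -/
noncomputable def shortestTrekIdeal : Ideal (MvPolynomial (Pairs n) ℂ) := RingHom.ker G.psi

end Dag

/-- An ideal is toric if it is the kernel of a homomorphism sending each variable to a monomial or
to `0`. -/
def IsToricKer {σ : Type} (I : Ideal (MvPolynomial σ ℂ)) : Prop :=
  ∃ (τ : Type) (f : σ → MvPolynomial τ ℂ), (∀ i, f i = 0 ∨ ∃ m : τ →₀ ℕ, f i = monomial m 1) ∧
    I = RingHom.ker (aeval f : MvPolynomial σ ℂ →ₐ[ℂ] MvPolynomial τ ℂ)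

end Q49.TG
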