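import Pool.Agent.Q49.TG.Trek

/-!
# Toric vanishing ideals of Gaussian DAG models and the shortest trek map
-/

set_option autoImplicit false

namespace Q49.TG

open MvPolynomial

/-- powers determine polynomials up to a root of unity -/
theorem root_C {ν : Type} (x y : MvPolynomial ν ℂ) (N : ℕ) (hN : N ≠ 0) (h : x ^ N = y ^ N) :
    ∃ ζ : ℂ, x = C ζ * y := by
  have : NeZero N := ⟨hN⟩
  have h1 : IsPrimitiveRoot (C (Complex.exp (2 * Real.pi * Complex.I / N)) : MvPolynomial ν ℂ) N :=
    (Complex.isPrimitiveRoot_exp N hN).map_of_injective (C_injective ν ℂ)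
  have h2 := h1.pow_sub_pow_eq_prod_sub_mul x y (Nat.pos_of_ne_zero hN)
  rw [h, sub_self] at h2
  obtain ⟨ζ, hζ, h3⟩ := Finset.prod_eq_zero_iff.1 h2.symm
  rw [Polynomial.mem_nthRootsFinset (Nat.pos_of_ne_zero hN)] at hζ
  -- a root of unity is a constant
  obtain ⟨i, -, hi⟩ := h1.eq_pow_of_pow_eq_one hζ
  refine ⟨Complex.exp (2 * Real.pi * Complex.I / N) ^ i, ?_⟩
  rw [map_pow, hi]
  exact sub_eq_zero.1 h3

namespace Dag

variable {n : ℕ} {G : Dag n}

/-- the image of `σ_p` -/
noncomputable def sv (G : Dag n) (p : Pairs n) : G.Ring := ∑ P : G.Trek p.1.1 p.1.2, P.term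

theorem sv_eq (p : Pairs n) : sv G p = ∑ P : G.Trek p.1.1 p.1.2, monomial P.ex 1 := by
  unfold sv
  exact Finset.sum_congr rfl fun P _ => P.term_eq

/-- sums of monomials of different treks are not zero -/
theorem sum_ne_zero {i j : Fin n} {s : Finset (G.Trek i j)} (P : G.Trek i j) (hP : P ∈ s) :
    (∑ Q ∈ s, monomial Q.ex (1 : ℂ)).coeff P.ex = 1 := by
  classical
  rw [coeff_sum, Finset.sum_eq_single P]
  · rw [coeff_monomial, if_pos rfl]
  · intro Q _ hQ
    rw [coeff_monomial, if_neg fun h => hQ (Trek.ex_inj h)]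
  · intro h
    exact absurd hP h

theorem sv_ne_zero {p : Pairs n} (h : Nonempty (G.Trek p.1.1 p.1.2)) : sv G p ≠ 0 := by
  obtain ⟨P⟩ := h
  intro h0
  have := sum_ne_zero P (Finset.mem_univ P)
  rw [← sv_eq, h0, coeff_zero] at this
  exact zero_ne_one this

theorem exists_shortest {i j : Fin n} (h : Nonempty (G.Trek i j)) :
    ∃ P : G.Trek i j, P.IsShortest := by
  obtain ⟨P, -, hP⟩ := Finset.exists_min_image (Finset.univ : Finset (G.Trek i j))
    (fun P => P.length) ⟨h.some, Finset.mem_univ _⟩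
  exact ⟨P, fun Q => hP Q (Finset.mem_univ Q)⟩

/-- the lowest part of `∑ P` -/
theorem tc_sv {p : Pairs n} {P : G.Trek p.1.1 p.1.2} (hP : P.IsShortest) :
    tc G.wt (sv G p) = ∑ Q with mwt G.wt (Q : G.Trek p.1.1 p.1.2).ex = P.length,
      monomial Q.ex 1 := by
  classical
  have h1 : P ∈ Finset.univ.filter fun Q : G.Trek p.1.1 p.1.2 => mwt G.wt Q.ex = P.length := by
    rw [Finset.mem_filter]
    exact ⟨Finset.mem_univ _, P.mwt_ex⟩
  have h2 : ∑ Q with mwt G.wt (Q : G.Trek p.1.1 p.1.2).ex = P.length,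
      (monomial Q.ex (1 : ℂ) : G.Ring) ≠ 0 := by
    intro h0
    have h2 := sum_ne_zero P h1
    rw [h0, coeff_zero] at h2
    exact zero_ne_one h2
  have h3 : ∀ Q ∈ (Finset.univ : Finset (G.Trek p.1.1 p.1.2)), P.length ≤ mwt G.wt Q.ex := by
    intro Q _
    rw [Q.mwt_ex]
    exact hP Q
  have h4 := tc_sum G.wt (Finset.univ : Finset (G.Trek p.1.1 p.1.2)) (fun Q => Q.ex)
    (fun _ => (1 : ℂ)) P.length h3 h2
  rw [sv_eq]
  exact h4

theorem tc_sv_unique {p : Pairs n} {P : G.Trek p.1.1 p.1.2} (hP : P.IsShortest)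
    (huniq : ∀ Q : G.Trek p.1.1 p.1.2, Q.IsShortest → Q = P) :
    tc G.wt (sv G p) = monomial P.ex 1 := by
  classical
  rw [tc_sv hP, Finset.sum_eq_single P]
  · intro Q hQ hne
    exfalso
    rw [Finset.mem_filter, Q.mwt_ex] at hQ
    exact hne (huniq Q fun R => by rw [hQ.2]; exact hP R)
  · intro h
    exfalso
    apply h
    rw [Finset.mem_filter]
    exact ⟨Finset.mem_univ _, P.mwt_ex⟩

/-- the pairs `(i, i)` and the edges -/
def jj (G : Dag n) : Fin n ⊕ G.Edges → Pairs n :=
  Sum.elim (fun i => ⟨(i, i), le_rfl⟩) fun e => ⟨(e.1.1, e.1.2), (G.lt_of_edge _ _ e.2).le⟩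

theorem jj_inj : Function.Injective (jj G) := by
  rintro (i | e) (i' | e') h
  · have h1 : i = i' := congrArg (fun p : Pairs n => p.1.1) h
    rw [h1]
  · have h1 : i = e'.1.1 := congrArg (fun p : Pairs n => p.1.1) h
    have h2 : i = e'.1.2 := congrArg (fun p : Pairs n => p.1.2) h
    exact absurd (h1.symm.trans h2) (G.lt_of_edge _ _ e'.2).ne
  · have h1 : e.1.1 = i' := congrArg (fun p : Pairs n => p.1.1) h
    have h2 : e.1.2 = i' := congrArg (fun p : Pairs n => p.1.2) h
    exact absurd (h1.trans h2.symm) (G.lt_of_edge _ _ e.2).ne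
  · have h1 : e.1.1 = e'.1.1 := congrArg (fun p : Pairs n => p.1.1) h
    have h2 : e.1.2 = e'.1.2 := congrArg (fun p : Pairs n => p.1.2) h
    rw [Subtype.ext (Prod.ext h1 h2)]

/-- the exponents of the lowest parts -/
noncomputable def ee (G : Dag n) : Fin n ⊕ G.Edges → (Fin n ⊕ G.Edges) →₀ ℕ :=
  Sum.elim (fun i => Finsupp.single (Sum.inl i) 1)
    fun e => Finsupp.single (Sum.inl e.1.1) 1 + Finsupp.single (Sum.inr e) 1

theorem tc_jj (q : Fin n ⊕ G.Edges) : tc G.wt (sv G (jj G q)) = monomial (ee G q) 1 := by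
  rcases q with i | e
  · have h := tc_sv_unique (p := jj G (Sum.inl i)) (P := trivTrek G i)
      (fun Q => Nat.zero_le _) (fun Q _ => trek_self Q)
    rw [h]
    exact congrArg (fun m => (monomial m 1 : G.Ring)) (trivTrek_ex i)
  · have h := tc_sv_unique (p := jj G (Sum.inr e)) (P := edgeTrek e)
      (fun Q => by
        change 1 ≤ Q.length
        by_contra hlt
        have h2 := eq_edgeTrek e (P := Q) (not_le.1 hlt).le
        rw [h2] at hlt
        exact hlt le_rfl) (fun Q hQ => eq_edgeTrek e (hQ (edgeTrek e)))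
    rw [h]
    exact congrArg (fun m => (monomial m 1 : G.Ring)) (edgeTrek_ex e)

theorem ee_inj [Fintype G.Edges] :
    Function.Injective fun M : (Fin n ⊕ G.Edges) →₀ ℕ => M.sum fun q k => k • ee G q := by
  classical
  intro M M' h
  have hval : ∀ (M : (Fin n ⊕ G.Edges) →₀ ℕ) (v : Fin n ⊕ G.Edges),
      (M.sum fun q k => k • ee G q) v = ∑ q, M q * ee G q v := by
    intro M v
    rw [Finsupp.sum_fintype _ _ (by simp), Finsupp.finsetSum_apply]
    refine Finset.sum_congr rfl fun q _ => ?_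
    rw [Finsupp.smul_apply, smul_eq_mul]
  have hr : ∀ e : G.Edges, M (Sum.inr e) = M' (Sum.inr e) := by
    intro e
    have h1 : ∀ M : (Fin n ⊕ G.Edges) →₀ ℕ,
        (M.sum fun q k => k • ee G q) (Sum.inr e) = M (Sum.inr e) := by
      intro M
      rw [hval, Finset.sum_eq_single (Sum.inr e)]
      · simp [ee]
      · rintro (i | e') _ hne
        · simp [ee]
        · have : e' ≠ e := fun h => hne (by rw [h])
          simp [ee, this]
      · intro h; exact absurd (Finset.mem_univ _) h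
    rw [← h1 M, ← h1 M']
    exact DFunLike.congr_fun h _
  ext v
  rcases v with i | e
  · have h1 : ∀ M : (Fin n ⊕ G.Edges) →₀ ℕ, (M.sum fun q k => k • ee G q) (Sum.inl i) =
        M (Sum.inl i) + ∑ e : G.Edges, M (Sum.inr e) * ee G (Sum.inr e) (Sum.inl i) := by
      intro M
      rw [hval, Fintype.sum_sum_type]
      congr 1
      rw [Finset.sum_eq_single i]
      · simp [ee]
      · intro i' _ hne
        simp [ee, hne]
      · intro h; exact absurd (Finset.mem_univ _) h
    have h2 := DFunLike.congr_fun h (Sum.inl i)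
    beta_reduce at h2
    rw [h1, h1] at h2
    simp only [hr] at h2
    exact Nat.add_right_cancel h2
  · exact hr e

/-- the data for the general theorem -/
noncomputable def setup (G : Dag n) [Fintype G.Edges] (S : Set (MvPolynomial (Pairs n) ℂ))
    (hS : ∀ f ∈ S, f.support.card ≤ 2) (hI : G.vanishingIdeal = Ideal.span S) :
    Setup ℂ (Pairs n) (Fin n ⊕ G.Edges) (Fin n ⊕ G.Edges) where
  wt := G.wt
  s := sv G
  j := jj G
  j_inj := jj_inj
  card_le := le_rfl
  e := ee G
  tc_j := tc_jj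
  e_inj := ee_inj
  root := root_C
  S := S
  two := hS
  ker_eq := hI

section main

variable {S : Set (MvPolynomial (Pairs n) ℂ)} (hS : ∀ f ∈ S, f.support.card ≤ 2)
  (hI : G.vanishingIdeal = Ideal.span S)

include hS hI in
/-- shortest treks are unique -/
theorem unique_shortest (p : Pairs n) (P Q : G.Trek p.1.1 p.1.2) (hP : P.IsShortest)
    (hQ : Q.IsShortest) : P = Q := by
  classical
  have : Fintype G.Edges := Fintype.ofFinite _
  let D := setup G S hS hI
  have h1 : D.Rel (sv G p) := D.rel_s (sv_ne_zero ⟨P⟩)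
  obtain ⟨m, b, hb, h2⟩ := Setup.Rel.tc_eq D h1
  have h3 : ∀ R : G.Trek p.1.1 p.1.2, R.IsShortest → R.ex = m := by
    intro R hR
    have h4 := tc_sv hR
    have h5 : R ∈ Finset.univ.filter fun Q : G.Trek p.1.1 p.1.2 => mwt G.wt Q.ex = R.length := by
      rw [Finset.mem_filter]
      exact ⟨Finset.mem_univ _, R.mwt_ex⟩
    have h6 := sum_ne_zero R h5
    rw [← h4] at h6
    change (tc D.wt (sv G p)).coeff R.ex = 1 at h6
    rw [h2, coeff_monomial] at h6
    by_contra hne
    rw [if_neg (Ne.symm hne)] at h6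
    exact zero_ne_one h6
  exact Trek.ex_inj ((h3 P hP).trans (h3 Q hQ).symm)

/-- the image of `σ_p` under `ψ_G` -/
theorem psi_X (p : Pairs n) : (∃ m : (Fin n ⊕ G.Edges) →₀ ℕ, G.psi (X p) = monomial m 1 ∧
    Nonempty (G.Trek p.1.1 p.1.2)) ∨ (G.psi (X p) = 0 ∧ IsEmpty (G.Trek p.1.1 p.1.2)) := by
  unfold psi
  rw [aeval_X]
  by_cases h : ∃ P : G.Trek p.1.1 p.1.2, P.IsShortest
  · left
    rw [dif_pos h]
    exact ⟨_, h.choose.term_eq, ⟨h.choose⟩⟩
  · right
    rw [dif_neg h]
    refine ⟨rfl, ?_⟩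
    by_contra hne
    rw [not_isEmpty_iff] at hne
    exact h (exists_shortest hne)

include hS hI in
theorem tc_eq_psi (p : Pairs n) : tc G.wt (sv G p) = G.psi (X p) := by
  classical
  unfold psi
  rw [aeval_X]
  by_cases h : ∃ P : G.Trek p.1.1 p.1.2, P.IsShortest
  · rw [dif_pos h, h.choose.term_eq]
    exact tc_sv_unique h.choose_spec fun Q hQ => unique_shortest hS hI p Q _ hQ h.choose_spec
  · rw [dif_neg h]
    have h1 : sv G p = 0 := by
      unfold sv
      have : IsEmpty (G.Trek p.1.1 p.1.2) := by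
        by_contra hne
        rw [not_isEmpty_iff] at hne
        exact h (exists_shortest hne)
      rw [Finset.univ_eq_empty, Finset.sum_empty]
    rw [h1, tc_zero]

include hS hI in
theorem tc_mon (u : Pairs n →₀ ℕ) : tc G.wt (G.phi (monomial u 1)) = G.psi (monomial u 1) := by
  have h1 : (monomial u (1 : ℂ) : MvPolynomial (Pairs n) ℂ) = ∏ p ∈ u.support, X p ^ u p := by
    rw [monomial_eq, map_one, one_mul]
    rfl
  rw [h1, map_prod, map_prod, tc_prod]
  refine Finset.prod_congr rfl fun p _ => ?_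
  rw [map_pow, map_pow, tc_pow, ← tc_eq_psi hS hI p]
  congr 2
  unfold phi
  rw [aeval_X]
  rfl

include hS hI in
theorem vanishing_le : G.vanishingIdeal ≤ G.shortestTrekIdeal := by
  rw [hI, Ideal.span_le]
  intro f hf
  obtain ⟨u, v, a, b, hab⟩ := two_terms (hS f hf)
  have h1 : f ∈ G.vanishingIdeal := by
    rw [hI]
    exact Ideal.subset_span hf
  change G.phi f = 0 at h1
  change G.psi f = 0
  have h2 : f = C a * monomial u 1 + C b * monomial v 1 := by
    rw [hab, C_mul_monomial, C_mul_monomial, mul_one, mul_one]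
  have hC : ∀ (θ : MvPolynomial (Pairs n) ℂ →ₐ[ℂ] G.Ring) (c : ℂ), θ (C c) = C c :=
    fun θ c => algHom_C θ c
  rw [h2, map_add, map_mul, map_mul, hC, hC] at h1 ⊢
  have h3 : C a * G.phi (monomial u 1) = C (-b) * G.phi (monomial v 1) := by
    rw [map_neg]
    linear_combination h1
  have h4 := congrArg (tc G.wt) h3
  rw [tc_mul, tc_mul, tc_C, tc_C, tc_mon hS hI, tc_mon hS hI, map_neg] at h4
  linear_combination h4

include hS hI in
theorem le_vanishing : G.shortestTrekIdeal ≤ G.vanishingIdeal := by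
  classical
  have : Fintype G.Edges := Fintype.ofFinite _
  let D := setup G S hS hI
  -- `ψ` as a monomial map
  have h0 : ∀ p : Pairs n, ∃ (m : (Fin n ⊕ G.Edges) →₀ ℕ) (c : ℂ), G.psi (X p) = monomial m c := by
    intro p
    rcases psi_X (G := G) p with ⟨m, h, -⟩ | ⟨h, -⟩
    · exact ⟨m, 1, h⟩
    · exact ⟨0, 0, by rw [h, monomial_zero]⟩
  choose m c hmc using h0
  have hpsi : G.psi = aeval (R := ℂ) fun p => (monomial (m p) (c p) : G.Ring) := by
    apply algHom_ext
    intro p
    rw [aeval_X, hmc]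
  intro F hF
  change G.psi F = 0 at hF
  rw [hpsi] at hF
  refine (Ideal.span_le.2 ?_ : Ideal.span _ ≤ G.vanishingIdeal) (mem_span_of_ker F hF)
  rw [← hpsi]
  rintro g ⟨hg, h⟩
  change G.phi g = 0
  have hzero : ∀ u : Pairs n →₀ ℕ, G.psi (monomial u 1) = 0 → G.phi (monomial u 1) = 0 := by
    intro u hu
    by_contra h1
    apply tc_ne_zero G.wt h1
    rw [tc_mon hS hI, hu]
  rcases h with ⟨u, rfl⟩ | ⟨u, v, huv, a, ha, hrel, rfl⟩
  · exact hzero u hg
  · have hC : ∀ (θ : MvPolynomial (Pairs n) ℂ →ₐ[ℂ] G.Ring) (c : ℂ), θ (C c) = C c :=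
      fun θ c => algHom_C θ c
    have h2 : (monomial v a : MvPolynomial (Pairs n) ℂ) = C a * monomial v 1 := by
      rw [C_mul_monomial, mul_one]
    rw [h2, map_sub, map_mul, hC, sub_eq_zero]
    by_cases hv : G.phi (monomial v 1) = 0
    · have h3 : G.psi (monomial v 1) = 0 := by rw [← tc_mon hS hI, hv, tc_zero]
      rw [h3, mul_zero] at hrel
      rw [hv, mul_zero]
      exact hzero u hrel
    · by_cases hu : G.phi (monomial u 1) = 0
      · exfalso
        have h3 : G.psi (monomial u 1) = 0 := by rw [← tc_mon hS hI, hu, tc_zero]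
        rw [h3] at hrel
        rcases mul_eq_zero.1 hrel.symm with h4 | h4
        · exact ha (C_eq_zero.1 h4)
        · exact hv (hzero v h4)
      · refine D.mon_eq_of_tc ha hu hv ?_
        change tc G.wt (G.phi (monomial u 1)) = C a * tc G.wt (G.phi (monomial v 1))
        rw [tc_mon hS hI, tc_mon hS hI]
        exact hrel

include hS hI in
theorem main : G.PsiDefined ∧ G.vanishingIdeal = G.shortestTrekIdeal := by
  refine ⟨fun i j hij hne => ?_, le_antisymm (vanishing_le hS hI) (le_vanishing hS hI)⟩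
  obtain ⟨P, hP⟩ := exists_shortest hne
  exact ⟨P, hP, fun Q hQ => unique_shortest hS hI ⟨(i, j), hij.le⟩ Q P hQ hP⟩

end main

/-- the shortest trek ideal is toric -/
theorem toric_st : IsToricKer G.shortestTrekIdeal := by
  refine ⟨Fin n ⊕ G.Edges, fun p => G.psi (X p), fun p => ?_, ?_⟩
  · rcases psi_X (G := G) p with ⟨m, h, -⟩ | ⟨h, -⟩
    · exact Or.inr ⟨m, h⟩
    · exact Or.inl h
  · have h : (aeval (R := ℂ) fun p => G.psi (X p)) = G.psi :=
      algHom_ext fun p => aeval_X _ _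
    rw [h]
    rfl

end Dag

/-- toric ideals are generated by polynomials with at most two terms -/
theorem toric_two {σ : Type} {I : Ideal (MvPolynomial σ ℂ)} (h : IsToricKer I) :
    ∃ S : Set (MvPolynomial σ ℂ), (∀ f ∈ S, f.support.card ≤ 2) ∧ I = Ideal.span S := by
  classical
  obtain ⟨τ, f, hf, hI⟩ := h
  have h0 : ∀ i, ∃ (m : τ →₀ ℕ) (c : ℂ), f i = monomial m c := by
    intro i
    rcases hf i with h | ⟨m, h⟩
    · exact ⟨0, 0, by rw [h, monomial_zero]⟩
    · exact ⟨m, 1, h⟩
  choose m c hmc using h0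
  have hf' : f = fun i => monomial (m i) (c i) := funext hmc
  refine ⟨{g | g ∈ I ∧ g.support.card ≤ 2}, fun g hg => hg.2,
    le_antisymm (fun F hF => ?_) (Ideal.span_le.2 fun g hg => hg.1)⟩
  have h1 : aeval (R := ℂ) (fun i => (monomial (m i) (c i) : MvPolynomial τ ℂ)) F = 0 := by
    rw [← hf']
    rw [hI] at hF
    exact hF
  refine Ideal.span_mono ?_ (mem_span_of_ker F h1)
  rintro g ⟨hg, h⟩
  refine ⟨by rw [hI, hf']; exact hg, ?_⟩
  rcases h with ⟨u, rfl⟩ | ⟨u, v, -, a, -, -, rfl⟩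
  · exact (Finset.card_le_card support_monomial_subset).trans (by simp)
  · refine (Finset.card_le_card (support_sub _ _ _)).trans ((Finset.card_union_le _ _).trans ?_)
    have h1 : ∀ (w : σ →₀ ℕ) (b : ℂ), (monomial w b : MvPolynomial σ ℂ).support.card ≤ 1 :=
      fun w b => (Finset.card_le_card support_monomial_subset).trans (by simp)
    have h2 := h1 u 1
    have h3 := h1 v a
    omega

end Q49.TG
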