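import Pool.Agent.Q49.TG.Bin

/-!
# Elements of ideals generated by polynomials with at most two terms
-/

set_option autoImplicit false

namespace Q49.TG

open MvPolynomial

variable {σ K : Type*} [Field K]

/-- a polynomial with at most two terms -/
theorem two_terms {f : MvPolynomial σ K} (h : f.support.card ≤ 2) :
    ∃ (u v : σ →₀ ℕ) (a b : K), f = monomial u a + monomial v b := by
  classical
  have hs := f.as_sum
  rcases Nat.lt_or_ge f.support.card 1 with h0 | h0
  · have h1 : f.support = ∅ := Finset.card_eq_zero.1 (by omega)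
    rw [h1, Finset.sum_empty] at hs
    exact ⟨0, 0, 0, 0, by rw [hs]; simp⟩
  · rcases Nat.lt_or_ge f.support.card 2 with h1 | h1
    · obtain ⟨u, hu⟩ := Finset.card_eq_one.1 (show f.support.card = 1 by omega)
      rw [hu, Finset.sum_singleton] at hs
      exact ⟨u, 0, f.coeff u, 0, by rw [monomial_zero, add_zero]; exact hs⟩
    · obtain ⟨u, v, huv, hu⟩ := Finset.card_eq_two.1 (show f.support.card = 2 by omega)
      rw [hu, Finset.sum_pair huv] at hs
      exact ⟨u, v, f.coeff u, f.coeff v, hs⟩

section functional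

variable (I : Ideal (MvPolynomial σ K)) (m : σ →₀ ℕ)

open Classical in
/-- the coefficient of a monomial on the class of `m` modulo `I` -/
noncomputable def gco (u : σ →₀ ℕ) : K :=
  if h : ∃ c : K, monomial u 1 - monomial m c ∈ I then h.choose else 0

variable {I m} (hm : (monomial m (1 : K) : MvPolynomial σ K) ∉ I)

theorem mon_mem_iff {v : σ →₀ ℕ} {b : K} (hb : b ≠ 0) :
    (monomial v b : MvPolynomial σ K) ∈ I ↔ (monomial v 1 : MvPolynomial σ K) ∈ I := by
  constructor
  · intro h
    have := I.mul_mem_left (C b⁻¹) h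
    rwa [C_mul_monomial, inv_mul_cancel₀ hb] at this
  · intro h
    have := I.mul_mem_left (C b) h
    rwa [C_mul_monomial, mul_one] at this

include hm in
theorem gco_eq {u : σ →₀ ℕ} {c : K} (h : monomial u 1 - monomial m c ∈ I) : gco I m u = c := by
  have h1 : ∃ c : K, monomial u 1 - monomial m c ∈ I := ⟨c, h⟩
  unfold gco
  rw [dif_pos h1]
  have h2 := h1.choose_spec
  by_contra hne
  apply hm
  rw [← mon_mem_iff (sub_ne_zero.2 hne)]
  have h3 := I.sub_mem h h2
  convert h3 using 1
  rw [map_sub]
  ring

theorem gco_none {u : σ →₀ ℕ} (h : ¬ ∃ c : K, monomial u 1 - monomial m c ∈ I) :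
    gco I m u = 0 := by
  unfold gco
  rw [dif_neg h]

include hm in
theorem gco_self : gco I m m = 1 := gco_eq hm (by rw [sub_self]; exact zero_mem _)

include hm in
theorem gco_two {u v : σ →₀ ℕ} {a b : K} (h : monomial u a + monomial v b ∈ I) :
    a * gco I m u + b * gco I m v = 0 := by
  -- a term in `I` has coefficient zero
  have hz : ∀ {v : σ →₀ ℕ} {b : K}, (monomial v b : MvPolynomial σ K) ∈ I → b * gco I m v = 0 := by
    intro v b h
    by_cases hb : b = 0
    · rw [hb, zero_mul]
    · rw [gco_eq hm (u := v) (c := 0) (by rw [monomial_zero, sub_zero]; exact (mon_mem_iff hb).1 h),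
        mul_zero]
  -- transport
  have ht : ∀ {u v : σ →₀ ℕ} {a b : K}, b ≠ 0 → monomial u a + monomial v b ∈ I → ∀ c : K,
      monomial u 1 - monomial m c ∈ I → monomial v 1 - monomial m (-(a / b) * c) ∈ I := by
    intro u v a b hb h c hc
    have h1 := I.sub_mem (I.mul_mem_left (C b⁻¹) h) (I.mul_mem_left (C (a / b)) hc)
    convert h1 using 1
    rw [mul_add, mul_sub, C_mul_monomial, C_mul_monomial, C_mul_monomial, C_mul_monomial,
      inv_mul_cancel₀ hb, mul_one, neg_mul, map_neg, div_eq_inv_mul]
    ring
  by_cases hb : b = 0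
  · rw [hb, monomial_zero, add_zero] at h
    rw [hz h, hb]
    ring
  by_cases ha : a = 0
  · rw [ha, monomial_zero, zero_add] at h
    rw [hz h, ha]
    ring
  by_cases hu : ∃ c : K, monomial u 1 - monomial m c ∈ I
  · obtain ⟨c, hc⟩ := hu
    rw [gco_eq hm hc, gco_eq hm (ht hb h c hc)]
    field_simp
    ring
  · have hv : ¬ ∃ c : K, monomial v 1 - monomial m c ∈ I := by
      rintro ⟨c, hc⟩
      exact hu ⟨_, ht ha (by rw [add_comm]; exact h) c hc⟩
    rw [gco_none hu, gco_none hv]
    ring

/-- the functional -/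
noncomputable def fun1 (I : Ideal (MvPolynomial σ K)) (m : σ →₀ ℕ) : MvPolynomial σ K →ₗ[K] K :=
  (basisMonomials σ K).constr K (gco I m)

theorem fun1_monomial (u : σ →₀ ℕ) (a : K) : fun1 I m (monomial u a) = a * gco I m u := by
  have h1 : (monomial u a : MvPolynomial σ K) = a • basisMonomials σ K u := by
    rw [coe_basisMonomials, smul_monomial, smul_eq_mul, mul_one]
  rw [h1, map_smul, fun1, Module.Basis.constr_basis, smul_eq_mul]

end functional

/-- A nonzero element `F` of an ideal generated by polynomials with at most two terms: one of the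
monomials of `F` is in the ideal or two of them are congruent up to a scalar. -/
theorem exists_of_mem_span {S : Set (MvPolynomial σ K)} (hS : ∀ f ∈ S, f.support.card ≤ 2)
    {F : MvPolynomial σ K} (hF : F ∈ Ideal.span S) (h0 : F ≠ 0) :
    (∃ m ∈ F.support, monomial m (1 : K) ∈ Ideal.span S) ∨
    ∃ m ∈ F.support, ∃ m' ∈ F.support, m ≠ m' ∧ ∃ c : K, c ≠ 0 ∧
      monomial m 1 - monomial m' c ∈ Ideal.span S := by
  by_contra hcon
  push Not at hcon
  obtain ⟨hc1, hc2⟩ := hcon
  obtain ⟨m, hmF⟩ := (support_nonempty (p := F)).2 h0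
  have hm := hc1 m hmF
  set I := Ideal.span S with hI
  -- the functional kills the ideal
  have hkill : ∀ f ∈ I, ∀ w : σ →₀ ℕ, fun1 I m (monomial w 1 * f) = 0 := by
    intro f hf
    refine Submodule.span_induction (p := fun f _ => ∀ w : σ →₀ ℕ,
      fun1 I m (monomial w 1 * f) = 0) ?_ ?_ ?_ ?_ hf
    · intro f hf w
      obtain ⟨u, v, a, b, hab⟩ := two_terms (hS f hf)
      have h1 : monomial w 1 * f = monomial (w + u) a + monomial (w + v) b := by
        rw [hab, mul_add, monomial_mul, monomial_mul, one_mul, one_mul]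
      have h2 : monomial (w + u) a + monomial (w + v) b ∈ I := by
        rw [← h1]
        exact I.mul_mem_left _ (Ideal.subset_span hf)
      rw [h1, map_add, fun1_monomial, fun1_monomial]
      exact gco_two hm h2
    · intro w
      rw [mul_zero, map_zero]
    · intro f g _ _ h1 h2 w
      rw [mul_add, map_add, h1, h2, add_zero]
    · intro a f _ h1 w
      rw [smul_eq_mul, a.as_sum, Finset.sum_mul, Finset.mul_sum, map_sum]
      refine Finset.sum_eq_zero fun v _ => ?_
      have h2 : (monomial w 1 : MvPolynomial σ K) * (monomial v (a.coeff v) * f) =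
          a.coeff v • (monomial (w + v) 1 * f) := by
        rw [← mul_assoc, monomial_mul, one_mul, smul_eq_C_mul, ← mul_assoc, C_mul_monomial, mul_one]
      rw [h2, map_smul, h1, smul_zero]
  have h1 := hkill F hF 0
  rw [show (monomial (0 : σ →₀ ℕ) (1 : K) : MvPolynomial σ K) = 1 from rfl, one_mul, F.as_sum,
    map_sum] at h1
  rw [Finset.sum_eq_single m] at h1
  · rw [fun1_monomial, gco_self hm, mul_one] at h1
    exact (mem_support_iff.1 hmF) h1
  · intro u hu hum
    rw [fun1_monomial]
    have h2 : gco I m u = 0 := by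
      by_cases h : ∃ c : K, monomial u 1 - monomial m c ∈ I
      · obtain ⟨c, hc⟩ := h
        rw [gco_eq hm hc]
        by_contra hc0
        exact hc2 u hu m hmF hum c hc0 hc
      · exact gco_none h
    rw [h2, mul_zero]
  · intro h
    exact absurd hmF h

end Q49.TG
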